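import Mathlib

namespace Pool.Agent.H94.Cuboid

/-- `l = P^{±1} Q^{±1}` as a rational number, not both exponents negative. -/
def Form (P Q : ℕ) (l : ℚ) : Prop := l = P * Q ∨ l = P / Q ∨ l = Q / P

def E (l : ℚ) : ℚ := l ^ 2 + (l⁻¹) ^ 2

lemma Form.symm {P Q : ℕ} {l : ℚ} (h : Form P Q l) : Form Q P l := by
  rcases h with h | h | h
  · left; rw [h]; ring
  · right; right; exact h
  · right; left; exact h

lemma E_form {P Q : ℕ} {l : ℚ} (hP : 0 < P) (hQ : 0 < Q) (h : Form P Q l) :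
    ∃ c : ℤ, (c = P ^ 4 * Q ^ 4 + 1 ∨ c = P ^ 4 + Q ^ 4) ∧ E l * (P ^ 2 * Q ^ 2) = c := by
  have hP' : (P : ℚ) ≠ 0 := by positivity
  have hQ' : (Q : ℚ) ≠ 0 := by positivity
  rcases h with h | h | h
  · refine ⟨P ^ 4 * Q ^ 4 + 1, Or.inl rfl, ?_⟩
    rw [h, E]; push_cast; field_simp
  · refine ⟨P ^ 4 + Q ^ 4, Or.inr rfl, ?_⟩
    rw [h, E]; push_cast; field_simp
  · refine ⟨P ^ 4 + Q ^ 4, Or.inr rfl, ?_⟩
    rw [h, E]; push_cast; field_simp; ring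

/-- the p-adic step -/
lemma padic_step (p : ℕ) (hp : p.Prime) (A₁ A₂ A₃ Q₁ Q₂ Q₃ : ℕ) (hQ₂ : ¬ p ∣ Q₂)
    (hQ₃ : ¬ p ∣ Q₃) (c₁ c₂ c₃ k : ℤ)
    (hc : ¬ (p : ℤ) ∣ c₁) (h12 : A₂ < A₁) (h13 : A₃ < A₁)
    (h : c₁ * ((p ^ A₂ * Q₂) ^ 2 * (p ^ A₃ * Q₃) ^ 2) + c₂ * ((p ^ A₁ * Q₁) ^ 2 * (p ^ A₃ * Q₃) ^ 2)
      + c₃ * ((p ^ A₁ * Q₁) ^ 2 * (p ^ A₂ * Q₂) ^ 2)
      = k * ((p ^ A₁ * Q₁) ^ 2 * (p ^ A₂ * Q₂) ^ 2 * (p ^ A₃ * Q₃) ^ 2)) : False := by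
  have hp' : Prime (p : ℤ) := Nat.prime_iff_prime_int.1 hp
  have hp0 : (p : ℤ) ≠ 0 := hp'.ne_zero
  have hd : ∀ a b : ℕ, ∀ x y : ℤ, 2 * A₂ + 2 * A₃ + 1 ≤ 2 * a + 2 * b →
      (p : ℤ) ^ (2 * A₂ + 2 * A₃ + 1) ∣ ((p : ℤ) ^ a * x) ^ 2 * ((p : ℤ) ^ b * y) ^ 2 := by
    intro a b x y hab
    have : ((p : ℤ) ^ a * x) ^ 2 * ((p : ℤ) ^ b * y) ^ 2 = p ^ (2 * a + 2 * b) * (x ^ 2 * y ^ 2) := by
      rw [pow_add, pow_mul', pow_mul']; ring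
    rw [this]
    exact Dvd.dvd.mul_right (pow_dvd_pow _ hab) _
  have h1 := hd A₁ A₃ Q₁ Q₃ (by omega)
  have h2 := hd A₁ A₂ Q₁ Q₂ (by omega)
  have e : c₁ * (((p : ℤ) ^ A₂ * Q₂) ^ 2 * (p ^ A₃ * Q₃) ^ 2) =
      k * ((p ^ A₁ * Q₁) ^ 2 * (p ^ A₂ * Q₂) ^ 2) * (p ^ A₃ * Q₃) ^ 2
      - c₂ * ((p ^ A₁ * Q₁) ^ 2 * (p ^ A₃ * Q₃) ^ 2)
      - c₃ * ((p ^ A₁ * Q₁) ^ 2 * (p ^ A₂ * Q₂) ^ 2) := by linarith
  have key : (p : ℤ) ^ (2 * A₂ + 2 * A₃ + 1) ∣ c₁ * ((p ^ A₂ * Q₂) ^ 2 * (p ^ A₃ * Q₃) ^ 2) := by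
    rw [e]
    exact dvd_sub (dvd_sub (Dvd.dvd.mul_right (Dvd.dvd.mul_left h2 _) _) (Dvd.dvd.mul_left h1 _))
      (Dvd.dvd.mul_left h2 _)
  have e2 : c₁ * (((p : ℤ) ^ A₂ * Q₂) ^ 2 * (p ^ A₃ * Q₃) ^ 2) =
      p ^ (2 * A₂ + 2 * A₃) * (c₁ * (Q₂ ^ 2 * Q₃ ^ 2)) := by
    rw [pow_add, pow_mul', pow_mul']; ring
  rw [e2, pow_succ] at key
  have key2 := (mul_dvd_mul_iff_left (pow_ne_zero _ hp0)).1 key
  rcases hp'.dvd_or_dvd key2 with h | h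
  · exact hc h
  rcases hp'.dvd_or_dvd h with h | h
  · exact hQ₂ (by exact_mod_cast hp'.dvd_of_dvd_pow h)
  · exact hQ₃ (by exact_mod_cast hp'.dvd_of_dvd_pow h)

/-- inequality consequences -/
lemma sq_lt {x y : ℚ} (hx : 1 < x) (hxy : x < y) : (x - x⁻¹) ^ 2 < (y - y⁻¹) ^ 2 := by
  have hy : 1 < y := lt_trans hx hxy
  have h1 : y⁻¹ < x⁻¹ := by
    rw [inv_lt_inv₀ (by linarith) (by linarith)]; exact hxy
  have h2 : x⁻¹ < 1 := inv_lt_one_of_one_lt₀ hx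
  apply pow_lt_pow_left₀ (by linarith) (by linarith) (by norm_num)

lemma sq_le {x y : ℚ} (hx : 1 < x) (hxy : x ≤ y) : (x - x⁻¹) ^ 2 ≤ (y - y⁻¹) ^ 2 := by
  rcases hxy.eq_or_lt with h | h
  · rw [h]
  · exact (sq_lt hx h).le

lemma lt_of_sq_lt {x y : ℚ} (hy : 1 < y) (h : (x - x⁻¹) ^ 2 < (y - y⁻¹) ^ 2) : x < y := by
  by_contra hcon
  push Not at hcon
  exact absurd (sq_le hy hcon) (not_le.2 h)

lemma sq_pos {x : ℚ} (hx : 1 < x) : 0 < (x - x⁻¹) ^ 2 := by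
  have h2 : x⁻¹ < 1 := inv_lt_one_of_one_lt₀ hx
  have : 0 < x - x⁻¹ := by linarith
  positivity

/-- factor-two gap -/
lemma sq_gap {x y : ℚ} (hx : 1 < x) (hxy : 2 * x ≤ y) : 2 * (x - x⁻¹) ^ 2 < (y - y⁻¹) ^ 2 := by
  have h1 : 2 * (x - x⁻¹) ≤ y - y⁻¹ := by
    have : y⁻¹ ≤ x⁻¹ := by
      rw [inv_le_inv₀ (by linarith) (by linarith)]; linarith
    have hx0 : 0 < x⁻¹ := by positivity
    linarith
  have h2 : 0 < x - x⁻¹ := by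
    have h2 : x⁻¹ < 1 := inv_lt_one_of_one_lt₀ hx
    linarith
  nlinarith

lemma sqrt_two {x y : ℚ} (hx : 1 < x) (h : 2 * (x - x⁻¹) ^ 2 = (y - y⁻¹) ^ 2) : False := by
  have hpos : 0 < x - x⁻¹ := by
    have h2 : x⁻¹ < 1 := inv_lt_one_of_one_lt₀ hx
    linarith
  have h2 : (2 : ℚ) = ((y - y⁻¹) / (x - x⁻¹)) ^ 2 := by
    rw [div_pow, ← h, mul_div_assoc, div_self (by positivity), mul_one]
  have h3 : IsSquare (2 : ℚ) := ⟨_, by rw [← sq]; exact h2⟩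
  have h4 : ¬ IsSquare (2 : ℚ) := by
    rw [show (2 : ℚ) = ((2 : ℕ) : ℚ) by norm_num, Rat.isSquare_natCast_iff]
    exact Nat.prime_two.prime.irreducible.not_isSquare
  exact h4 h3

lemma one_le_pow4 {a : ℤ} (ha : 0 < a) : 1 ≤ a ^ 4 := by
  have : 0 < a ^ 4 := by positivity
  omega

lemma sub_sq_lt_left {u v : ℤ} (hv : 0 < v) (huv : v ≤ u) : (u - v) ^ 2 < u ^ 2 := by nlinarith

lemma sub_sq_lt_right {u v : ℤ} (hu : 0 < u) (huv : u ≤ v) : (u - v) ^ 2 < v ^ 2 := by nlinarith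

/-- Diophantine cases -/
lemma caseA (M K a c : ℤ) (hM : 1 < M) (hK : 0 < K) (ha : 0 < a) (hc : 0 < c) (hKM : M < K)
    (hcop : IsCoprime M K)
    (h : (K ^ 2 - M ^ 2) * (a ^ 4 * c ^ 4 * M ^ 2 * K ^ 2 - 1) = (M ^ 2 * a ^ 2 - K ^ 2 * c ^ 2) ^ 2) :
    False := by
  have ha4 := one_le_pow4 ha
  have hc4 := one_le_pow4 hc
  have hd : K ^ 2 ∣ M ^ 2 * a ^ 4 - 1 := by
    have h1 : K ^ 2 ∣ M ^ 2 * (M ^ 2 * a ^ 4 - 1) := by
      refine ⟨(K ^ 2 - M ^ 2) * (a ^ 4 * c ^ 4 * M ^ 2) - 1 + 2 * M ^ 2 * a ^ 2 * c ^ 2 - K ^ 2 * c ^ 4, ?_⟩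
      linear_combination - h
    exact (hcop.symm.pow : IsCoprime (K ^ 2) (M ^ 2)).dvd_of_dvd_mul_left h1
  have hpos : 0 < M ^ 2 * a ^ 4 - 1 := by nlinarith
  have hle := Int.le_of_dvd hpos hd
  have hD : 1 ≤ K ^ 2 - M ^ 2 := by nlinarith
  rcases le_total (K ^ 2 * c ^ 2) (M ^ 2 * a ^ 2) with hu | hu
  · have h1 := sub_sq_lt_left (u := M ^ 2 * a ^ 2) (v := K ^ 2 * c ^ 2) (by positivity) hu
    have h2 : M ^ 4 * a ^ 4 ≤ a ^ 4 * c ^ 4 * M ^ 2 * K ^ 2 - 1 := by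
      have e1 : M ^ 2 + 1 ≤ K ^ 2 := by linarith
      have e2 : a ^ 4 * M ^ 2 * (M ^ 2 + 1) ≤ a ^ 4 * M ^ 2 * K ^ 2 :=
        mul_le_mul_of_nonneg_left e1 (by positivity)
      have e3 : a ^ 4 * M ^ 2 * K ^ 2 * 1 ≤ a ^ 4 * M ^ 2 * K ^ 2 * c ^ 4 :=
        mul_le_mul_of_nonneg_left hc4 (by positivity)
      have e4 : 1 ≤ a ^ 4 * M ^ 2 := by nlinarith
      nlinarith
    have h3 : 1 * (M ^ 4 * a ^ 4) ≤ (K ^ 2 - M ^ 2) * (a ^ 4 * c ^ 4 * M ^ 2 * K ^ 2 - 1) :=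
      mul_le_mul hD h2 (by positivity) (by linarith)
    rw [h] at h3
    nlinarith
  · have h1 := sub_sq_lt_right (u := M ^ 2 * a ^ 2) (v := K ^ 2 * c ^ 2) (by positivity) hu
    have h2 : K ^ 4 * c ^ 4 ≤ a ^ 4 * c ^ 4 * M ^ 2 * K ^ 2 - 1 := by
      have e1 : K ^ 2 + 1 ≤ M ^ 2 * a ^ 4 := by linarith
      have e2 : c ^ 4 * K ^ 2 * (K ^ 2 + 1) ≤ c ^ 4 * K ^ 2 * (M ^ 2 * a ^ 4) :=
        mul_le_mul_of_nonneg_left e1 (by positivity)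
      have e4 : 1 ≤ c ^ 4 * K ^ 2 := by nlinarith
      nlinarith
    have h3 : 1 * (K ^ 4 * c ^ 4) ≤ (K ^ 2 - M ^ 2) * (a ^ 4 * c ^ 4 * M ^ 2 * K ^ 2 - 1) :=
      mul_le_mul hD h2 (by positivity) (by linarith)
    rw [h] at h3
    nlinarith

lemma caseB (M K a c : ℤ) (hM : 1 < M) (hK : 0 < K) (ha : 0 < a) (hc : 0 < c)
    (hcop : IsCoprime (M * a) (K * c))
    (h : (K ^ 2 * c ^ 4 - M ^ 2) * (a ^ 4 * M ^ 2 * K ^ 2 - 1) = (M ^ 2 * a ^ 2 - K ^ 2 * c ^ 2) ^ 2) :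
    False := by
  have ha4 := one_le_pow4 ha
  have hc4 := one_le_pow4 hc
  have hMK : IsCoprime M K := hcop.of_mul_left_left.of_mul_right_left
  have hMc : IsCoprime M c := hcop.of_mul_left_left.of_mul_right_right
  have hd : K ^ 2 ∣ M ^ 2 * a ^ 4 - 1 := by
    have h1 : K ^ 2 ∣ M ^ 2 * (M ^ 2 * a ^ 4 - 1) := by
      refine ⟨(K ^ 2 * c ^ 4 - M ^ 2) * (a ^ 4 * M ^ 2) - c ^ 4 + 2 * M ^ 2 * a ^ 2 * c ^ 2 - K ^ 2 * c ^ 4, ?_⟩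
      linear_combination - h
    exact (hMK.symm.pow : IsCoprime (K ^ 2) (M ^ 2)).dvd_of_dvd_mul_left h1
  have hd2 : M ^ 2 ∣ K ^ 2 + 1 := by
    have h1 : M ^ 2 ∣ (K * c ^ 2) ^ 2 * (K ^ 2 + 1) := by
      refine ⟨(K ^ 2 * c ^ 4 - M ^ 2) * (a ^ 4 * K ^ 2) + 1 + 2 * K ^ 2 * a ^ 2 * c ^ 2 - M ^ 2 * a ^ 4, ?_⟩
      linear_combination - h
    exact ((hMK.mul_right hMc.pow_right).pow : IsCoprime (M ^ 2) ((K * c ^ 2) ^ 2)).dvd_of_dvd_mul_left h1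
  have hpos : 0 < M ^ 2 * a ^ 4 - 1 := by nlinarith
  have hle := Int.le_of_dvd hpos hd
  have hle2 := Int.le_of_dvd (by positivity) hd2
  have hMneK : M ≠ K := by
    intro e
    rw [e] at hMK
    have := isCoprime_self.1 hMK
    rcases Int.isUnit_iff.1 this with h | h <;> omega
  have hMK' : M < K := by
    rcases lt_trichotomy M K with h | h | h
    · exact h
    · exact absurd h hMneK
    · nlinarith
  have hD : 1 ≤ K ^ 2 - M ^ 2 := by nlinarith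
  have hD' : 1 ≤ K ^ 2 * c ^ 4 - M ^ 2 := by nlinarith
  rcases le_total (K ^ 2 * c ^ 2) (M ^ 2 * a ^ 2) with hu | hu
  · have h1 := sub_sq_lt_left (u := M ^ 2 * a ^ 2) (v := K ^ 2 * c ^ 2) (by positivity) hu
    have h2 : M ^ 4 * a ^ 4 ≤ a ^ 4 * M ^ 2 * K ^ 2 - 1 := by
      have e1 : M ^ 2 + 1 ≤ K ^ 2 := by linarith
      have e2 : a ^ 4 * M ^ 2 * (M ^ 2 + 1) ≤ a ^ 4 * M ^ 2 * K ^ 2 :=
        mul_le_mul_of_nonneg_left e1 (by positivity)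
      have e4 : 1 ≤ a ^ 4 * M ^ 2 := by nlinarith
      nlinarith
    have h3 : 1 * (M ^ 4 * a ^ 4) ≤ (K ^ 2 * c ^ 4 - M ^ 2) * (a ^ 4 * M ^ 2 * K ^ 2 - 1) :=
      mul_le_mul hD' h2 (by positivity) (by linarith)
    rw [h] at h3
    nlinarith
  · have h1 := sub_sq_lt_right (u := M ^ 2 * a ^ 2) (v := K ^ 2 * c ^ 2) (by positivity) hu
    have h2 : K ^ 4 ≤ a ^ 4 * M ^ 2 * K ^ 2 - 1 := by
      have e1 : K ^ 2 + 1 ≤ M ^ 2 * a ^ 4 := by linarith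
      have e2 : K ^ 2 * (K ^ 2 + 1) ≤ K ^ 2 * (M ^ 2 * a ^ 4) :=
        mul_le_mul_of_nonneg_left e1 (by positivity)
      have e4 : 1 ≤ K ^ 2 := by nlinarith
      nlinarith
    have h4 : c ^ 4 ≤ K ^ 2 * c ^ 4 - M ^ 2 := by
      have : M ^ 2 ≤ K ^ 2 - 1 := by linarith
      nlinarith
    have h3 : c ^ 4 * K ^ 4 ≤ (K ^ 2 * c ^ 4 - M ^ 2) * (a ^ 4 * M ^ 2 * K ^ 2 - 1) :=
      mul_le_mul h4 h2 (by positivity) (by linarith)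
    rw [h] at h3
    nlinarith

lemma caseC (M K a c : ℤ) (hM : 1 < M) (hK : 0 < K) (ha : 0 < a)
    (hKM : M * a ^ 2 < K)
    (hcop : IsCoprime (M * a) (K * c))
    (h : (K ^ 2 - M ^ 2 * a ^ 4) * (c ^ 4 * M ^ 2 * K ^ 2 - 1) = (M ^ 2 * a ^ 2 - K ^ 2 * c ^ 2) ^ 2) :
    False := by
  have hMK : IsCoprime M K := hcop.of_mul_left_left.of_mul_right_left
  have haK : IsCoprime a K := hcop.of_mul_left_right.of_mul_right_left
  have hd : K ^ 2 ∣ M ^ 2 - 1 := by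
    have h1 : K ^ 2 ∣ (M * a ^ 2) ^ 2 * (M ^ 2 - 1) := by
      refine ⟨(K ^ 2 - M ^ 2 * a ^ 4) * (c ^ 4 * M ^ 2) - 1 + 2 * M ^ 2 * a ^ 2 * c ^ 2 - K ^ 2 * c ^ 4, ?_⟩
      linear_combination - h
    exact ((hMK.symm.mul_right haK.symm.pow_right).pow :
      IsCoprime (K ^ 2) ((M * a ^ 2) ^ 2)).dvd_of_dvd_mul_left h1
  have hpos : 0 < M ^ 2 - 1 := by nlinarith
  have hle := Int.le_of_dvd hpos hd
  have h1a : 1 ≤ a ^ 2 := by nlinarith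
  have : M ≤ M * a ^ 2 := by nlinarith
  nlinarith

lemma caseD (M K a c : ℤ) (hM : 1 < M) (hK : 0 < K)
    (hcop : IsCoprime (M * a) (K * c))
    (h : (K ^ 2 * c ^ 4 - M ^ 2 * a ^ 4) * (M ^ 2 * K ^ 2 - 1) = (M ^ 2 * a ^ 2 - K ^ 2 * c ^ 2) ^ 2) :
    False := by
  have hMK : IsCoprime M K := hcop.of_mul_left_left.of_mul_right_left
  have haK : IsCoprime a K := hcop.of_mul_left_right.of_mul_right_left
  have hMc : IsCoprime M c := hcop.of_mul_left_left.of_mul_right_right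
  have hd : K ^ 2 ∣ M ^ 2 - 1 := by
    have h1 : K ^ 2 ∣ (M * a ^ 2) ^ 2 * (M ^ 2 - 1) := by
      refine ⟨(K ^ 2 * c ^ 4 - M ^ 2 * a ^ 4) * M ^ 2 - c ^ 4 + 2 * M ^ 2 * a ^ 2 * c ^ 2 - K ^ 2 * c ^ 4, ?_⟩
      linear_combination - h
    exact ((hMK.symm.mul_right haK.symm.pow_right).pow :
      IsCoprime (K ^ 2) ((M * a ^ 2) ^ 2)).dvd_of_dvd_mul_left h1
  have hd2 : M ^ 2 ∣ K ^ 2 + 1 := by
    have h1 : M ^ 2 ∣ (K * c ^ 2) ^ 2 * (K ^ 2 + 1) := by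
      refine ⟨(K ^ 2 * c ^ 4 - M ^ 2 * a ^ 4) * K ^ 2 + a ^ 4 + 2 * K ^ 2 * a ^ 2 * c ^ 2 - M ^ 2 * a ^ 4, ?_⟩
      linear_combination - h
    exact ((hMK.mul_right hMc.pow_right).pow : IsCoprime (M ^ 2) ((K * c ^ 2) ^ 2)).dvd_of_dvd_mul_left h1
  have hpos : 0 < M ^ 2 - 1 := by nlinarith
  have hle := Int.le_of_dvd hpos hd
  have hle2 := Int.le_of_dvd (by positivity) hd2
  have : K < M := by nlinarith
  nlinarith

/-- the Pythagorean equation in the `λ` variables -/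
def Eqn (l₁ l₂ l₃ : ℚ) : Prop :=
  (l₁ - l₁⁻¹) ^ 2 + (l₂ - l₂⁻¹) ^ 2 = (l₃ - l₃⁻¹) ^ 2

lemma Eqn.symm {l₁ l₂ l₃ : ℚ} (h : Eqn l₁ l₂ l₃) : Eqn l₂ l₁ l₃ := by
  unfold Eqn at *; rw [add_comm]; exact h

lemma Eqn.lt_left {l₁ l₂ l₃ : ℚ} (h : Eqn l₁ l₂ l₃) (h2 : 1 < l₂) (h3 : 1 < l₃) :
    l₁ < l₃ := by
  apply lt_of_sq_lt h3
  have := sq_pos h2
  unfold Eqn at h
  linarith

lemma Eqn.lt_right {l₁ l₂ l₃ : ℚ} (h : Eqn l₁ l₂ l₃) (h1 : 1 < l₁) (h3 : 1 < l₃) :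
    l₂ < l₃ := h.symm.lt_left h1 h3

lemma Eqn.gap {l₁ l₂ l₃ : ℚ} (h : Eqn l₁ l₂ l₃) (h1 : 1 < l₁) (h21 : 1 < l₂) (h2 : 2 * l₁ ≤ l₃)
    (h3 : 2 * l₂ ≤ l₃) : False := by
  have e1 := sq_gap h1 h2
  have e2 := sq_gap h21 h3
  unfold Eqn at h
  linarith

lemma form_le {P Q : ℕ} {l : ℚ} (hP : 0 < P) (hQ : 0 < Q) (h : Form P Q l) :
    l ≤ P * Q := by
  have hP' : (1 : ℚ) ≤ P := by exact_mod_cast hP
  have hQ' : (1 : ℚ) ≤ Q := by exact_mod_cast hQ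
  rcases h with h | h | h
  · exact h.le
  · rw [h]
    calc (P : ℚ) / Q ≤ P := div_le_self (by positivity) hQ'
      _ ≤ P * Q := le_mul_of_one_le_right (by positivity) hQ'
  · rw [h]
    calc (Q : ℚ) / P ≤ Q := div_le_self (by positivity) hP'
      _ ≤ P * Q := le_mul_of_one_le_left (by positivity) hP'

lemma prod_half {P Q P' Q' : ℕ} (hP : 0 < P) (hQ : 0 < Q) (hP' : P' ∣ P) (hQ' : Q' ∣ Q)
    (hlt : (P' : ℚ) * Q' < P * Q) : 2 * ((P' : ℚ) * Q') ≤ P * Q := by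
  have hd : P' * Q' ∣ P * Q := Nat.mul_dvd_mul hP' hQ'
  obtain ⟨t, ht⟩ := hd
  have hlt' : P' * Q' < P * Q := by exact_mod_cast hlt
  have ht2 : 2 ≤ t := by
    by_contra hcon
    have : t = 0 ∨ t = 1 := by omega
    rcases this with rfl | rfl
    · have := Nat.mul_pos hP hQ; omega
    · omega
  have : P' * Q' * 2 ≤ P * Q := by rw [ht]; exact Nat.mul_le_mul_left _ ht2
  have h3 : ((P' * Q' * 2 : ℕ) : ℚ) ≤ ((P * Q : ℕ) : ℚ) := by exact_mod_cast this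
  push_cast at h3
  linarith

/-- a form below the full product is at most half of it -/
lemma form_half {P Q P' Q' : ℕ} {l : ℚ} (hP : 0 < P) (hQ : 0 < Q) (hP' : P' ∣ P) (hQ' : Q' ∣ Q)
    (h : Form P' Q' l) (hlt : l < P * Q) : 2 * l ≤ P * Q := by
  have hP0 : 0 < P' := Nat.pos_of_dvd_of_pos hP' hP
  have hQ0 : 0 < Q' := Nat.pos_of_dvd_of_pos hQ' hQ
  have key : ∀ a b : ℕ, 0 < a → 0 < b → (a : ℚ) * b ≤ P * Q → 
      ((a : ℚ) * b < P * Q → 2 * ((a : ℚ) * b) ≤ P * Q) → (a : ℚ) / b < P * Q →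
      2 * ((a : ℚ) / b) ≤ P * Q := by
    intro a b ha hb hab hab2 hlt
    rcases Nat.lt_or_ge 1 b with h1 | h1
    · have h2 : (2 : ℚ) ≤ b := by exact_mod_cast h1
      have ha' : (0 : ℚ) < a := by exact_mod_cast ha
      have h3 : (a : ℚ) / b ≤ a / 2 := div_le_div_of_nonneg_left ha'.le (by norm_num) h2
      have h4 : (a : ℚ) ≤ a * b := le_mul_of_one_le_right ha'.le (by linarith)
      linarith
    · have h2 : b = 1 := by omega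
      subst h2
      simp only [Nat.cast_one, div_one, mul_one] at *
      exact hab2 hlt
  have hle : (P' : ℚ) * Q' ≤ P * Q := by
    exact_mod_cast Nat.le_of_dvd (Nat.mul_pos hP hQ) (Nat.mul_dvd_mul hP' hQ')
  rcases h with h | h | h
  · rw [h] at hlt ⊢
    exact prod_half hP hQ hP' hQ' hlt
  · rw [h] at hlt ⊢
    exact key P' Q' hP0 hQ0 hle (fun h => prod_half hP hQ hP' hQ' h) hlt
  · rw [h] at hlt ⊢
    refine key Q' P' hQ0 hP0 (by rw [mul_comm]; exact hle) (fun h => ?_) hlt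
    rw [mul_comm] at h
    rw [mul_comm (Q' : ℚ)]
    exact prod_half hP hQ hP' hQ' h

/-- helper: if `P > Q ≥ Q' ≥ 1`, then any form `(P, Q')` bigger than one is at least `P/Q`. -/
lemma form_ge {P Q Q' : ℕ} {l : ℚ} (hQ : 0 < Q) (hQ' : Q' ∣ Q) (hPQ : Q < P)
    (h : Form P Q' l) (h1 : 1 < l) : (P : ℚ) / Q ≤ l := by
  have hQ0 : 0 < Q' := Nat.pos_of_dvd_of_pos hQ' hQ
  have hle : Q' ≤ Q := Nat.le_of_dvd hQ hQ'
  have hPc : (0 : ℚ) < P := by exact_mod_cast (lt_trans hQ hPQ)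
  have hQc : (1 : ℚ) ≤ Q := by exact_mod_cast hQ
  have hQ'c : (1 : ℚ) ≤ Q' := by exact_mod_cast hQ0
  have hlec : (Q' : ℚ) ≤ Q := by exact_mod_cast hle
  have hPQc : (Q : ℚ) < P := by exact_mod_cast hPQ
  rcases h with h | h | h
  · rw [h]
    calc (P : ℚ) / Q ≤ P := div_le_self hPc.le hQc
      _ ≤ P * Q' := le_mul_of_one_le_right hPc.le hQ'c
  · rw [h]
    exact div_le_div_of_nonneg_left hPc.le (by linarith) hlec
  · exfalso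
    rw [h, lt_div_iff₀ hPc] at h1
    linarith

lemma caseI {P Q P₁ Q₁ P₂ Q₂ : ℕ} {l₁ l₂ l₃ : ℚ} (hP : 0 < P) (hQ : 0 < Q)
    (hP₁ : P₁ ∣ P) (hP₂ : P₂ ∣ P) (hQ₁ : Q₁ ∣ Q) (hQ₂ : Q₂ ∣ Q)
    (f₁ : Form P₁ Q₁ l₁) (f₂ : Form P₂ Q₂ l₂) (f₃ : Form P Q l₃)
    (h₁ : 1 < l₁) (h₂ : 1 < l₂) (h₃ : 1 < l₃) (hp : P₁ = P ∨ P₂ = P) (hq : Q₁ = Q ∨ Q₂ = Q)
    (h : Eqn l₁ l₂ l₃) : False := by
  have hlt1 := h.lt_left h₂ h₃
  have hlt2 := h.lt_right h₁ h₃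
  have hPc : (0 : ℚ) < P := by exact_mod_cast hP
  have hQc : (0 : ℚ) < Q := by exact_mod_cast hQ
  rcases f₃ with f | f | f
  · rw [f] at hlt1 hlt2
    have e1 := form_half hP hQ hP₁ hQ₁ f₁ hlt1
    have e2 := form_half hP hQ hP₂ hQ₂ f₂ hlt2
    rw [← f] at e1 e2
    exact h.gap h₁ h₂ e1 e2
  · have hPQ : Q < P := by
      rw [f, lt_div_iff₀ hQc, one_mul] at h₃
      exact_mod_cast h₃
    rcases hp with rfl | rfl
    · have := form_ge hQ hQ₁ hPQ f₁ h₁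
      rw [← f] at this; linarith
    · have := form_ge hQ hQ₂ hPQ f₂ h₂
      rw [← f] at this; linarith
  · have hPQ : P < Q := by
      rw [f, lt_div_iff₀ hPc, one_mul] at h₃
      exact_mod_cast h₃
    rcases hq with rfl | rfl
    · have := form_ge hP hP₁ hPQ f₁.symm h₁
      rw [← f] at this; linarith
    · have := form_ge hP hP₂ hPQ f₂.symm h₂
      rw [← f] at this; linarith

/-- the value of a non-full form on the full pair -/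
lemma form_full {P Q P₃ Q₃ : ℕ} {l l₃ : ℚ} (hP : 0 < P) (hQ : 0 < Q)
    (hP₃ : P₃ ∣ P) (hQ₃ : Q₃ ∣ Q) (f : Form P Q l) (f₃ : Form P₃ Q₃ l₃) (hlt : l < l₃) :
    l = P / Q ∨ l = Q / P := by
  rcases f with f | f | f
  · exfalso
    have h1 := form_le (Nat.pos_of_dvd_of_pos hP₃ hP) (Nat.pos_of_dvd_of_pos hQ₃ hQ) f₃
    have hle : (P₃ : ℚ) * Q₃ ≤ P * Q := by
      exact_mod_cast Nat.le_of_dvd (Nat.mul_pos hP hQ) (Nat.mul_dvd_mul hP₃ hQ₃)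
    linarith
  · left; exact f
  · right; exact f

lemma caseIIa {P Q P₃ Q₃ : ℕ} {l₁ l₂ l₃ : ℚ} (hP : 0 < P) (hQ : 0 < Q)
    (hP₃ : P₃ ∣ P) (hQ₃ : Q₃ ∣ Q)
    (f₁ : Form P Q l₁) (f₂ : Form P Q l₂) (f₃ : Form P₃ Q₃ l₃)
    (h₁ : 1 < l₁) (h₂ : 1 < l₂) (h₃ : 1 < l₃)
    (h : Eqn l₁ l₂ l₃) : False := by
  have hlt1 := h.lt_left h₂ h₃
  have hlt2 := h.lt_right h₁ h₃
  have hPc : (0 : ℚ) < P := by exact_mod_cast hP
  have hQc : (0 : ℚ) < Q := by exact_mod_cast hQ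
  have g1 := form_full hP hQ hP₃ hQ₃ f₁ f₃ hlt1
  have g2 := form_full hP hQ hP₃ hQ₃ f₂ f₃ hlt2
  have heq : l₁ = l₂ := by
    rcases g1 with g1 | g1 <;> rcases g2 with g2 | g2
    · rw [g1, g2]
    · exfalso
      rw [g1, lt_div_iff₀ hQc] at h₁
      rw [g2, lt_div_iff₀ hPc] at h₂
      linarith
    · exfalso
      rw [g1, lt_div_iff₀ hPc] at h₁
      rw [g2, lt_div_iff₀ hQc] at h₂
      linarith
    · rw [g1, g2]
  subst heq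
  unfold Eqn at h
  exact sqrt_two (y := l₃) h₁ (by linarith)

lemma int_gap {a b : ℚ} {t : ℕ} (ha : 0 < a) (hb : b = t * a) (hlt : a < b) : 2 * a ≤ b := by
  have h1 : (1 : ℚ) < t := by
    rw [hb] at hlt
    by_contra hcon
    push Not at hcon
    nlinarith
  have h2 : 2 ≤ t := by exact_mod_cast h1
  have h3 : (2 : ℚ) ≤ t := by exact_mod_cast h2
  rw [hb]
  exact mul_le_mul_of_nonneg_right h3 ha.le

lemma caseIIb {P Q Q₂ P₃ : ℕ} {l₁ l₂ l₃ : ℚ} (hP : 0 < P) (hQ : 0 < Q) (hcop : Nat.Coprime P Q)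
    (hP₃ : P₃ ∣ P) (hne : P₃ ≠ P) (hQ₂ : Q₂ ∣ Q)
    (f₁ : Form P Q l₁) (f₂ : Form P Q₂ l₂) (f₃ : Form P₃ Q l₃)
    (h₁ : 1 < l₁) (h₂ : 1 < l₂) (h₃ : 1 < l₃)
    (h : Eqn l₁ l₂ l₃) : False := by
  have hlt1 := h.lt_left h₂ h₃
  have hlt2 := h.lt_right h₁ h₃
  have hPc : (0 : ℚ) < P := by exact_mod_cast hP
  have hQc : (0 : ℚ) < Q := by exact_mod_cast hQ
  have hP₃0 := Nat.pos_of_dvd_of_pos hP₃ hP
  have hQ₂0 := Nat.pos_of_dvd_of_pos hQ₂ hQ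
  have hP₃c : (0 : ℚ) < P₃ := by exact_mod_cast hP₃0
  have hQ₂c : (0 : ℚ) < Q₂ := by exact_mod_cast hQ₂0
  have hP₃le : (P₃ : ℚ) ≤ P := by exact_mod_cast Nat.le_of_dvd hP hP₃
  have hQ₂le : (Q₂ : ℚ) ≤ Q := by exact_mod_cast Nat.le_of_dvd hQ hQ₂
  have g1 := form_full hP hQ hP₃ dvd_rfl f₁ f₃ hlt1
  -- exclude l₃ = P₃/Q
  have g3 : l₃ = P₃ * Q ∨ l₃ = Q / P₃ := by
    rcases f₃ with f | f | f
    · left; exact f
    · exfalso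
      rw [f, lt_div_iff₀ hQc] at h₃
      rcases g1 with g | g
      · rw [f, g] at hlt1
        have := div_le_div_of_nonneg_right hP₃le hQc.le
        linarith
      · rw [g, lt_div_iff₀ hPc] at h₁
        linarith
    · right; exact f
  -- exclude l₂ = Q₂/P
  have g2 : l₂ = P * Q₂ ∨ l₂ = P / Q₂ := by
    rcases f₂ with f | f | f
    · left; exact f
    · right; exact f
    · exfalso
      have hPQ : (P : ℚ) < Q₂ := by
        rw [f, lt_div_iff₀ hPc] at h₂; linarith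
      have g1' : l₁ = Q / P := by
        rcases g1 with g | g
        · exfalso
          rw [g, lt_div_iff₀ hQc] at h₁; linarith
        · exact g
      have hl21 : l₂ ≤ l₁ := by
        rw [f, g1']
        exact div_le_div_of_nonneg_right hQ₂le hPc.le
      have hgap : 2 * l₁ ≤ l₃ := by
        obtain ⟨M, hM⟩ := hP₃
        rcases g3 with g | g
        · refine int_gap (t := P₃ * P) (by linarith) ?_ hlt1
          rw [g, g1']; push_cast; field_simp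
        · refine int_gap (t := M) (by linarith) ?_ hlt1
          have hMc : (P : ℚ) = P₃ * M := by exact_mod_cast hM
          rw [g, g1', hMc]
          have : (M : ℚ) ≠ 0 := by
            intro h0; rw [h0, mul_zero] at hMc; linarith
          field_simp
      exact h.gap h₁ h₂ hgap (by linarith)
  obtain ⟨M, hM⟩ := hP₃
  obtain ⟨K, hK⟩ := hQ₂
  have hMpos : 0 < M := by
    rcases Nat.eq_zero_or_pos M with h | h
    · rw [h] at hM; omega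
    · exact h
  have hKpos : 0 < K := by
    rcases Nat.eq_zero_or_pos K with h | h
    · rw [h] at hK; omega
    · exact h
  have hM1 : 1 < M := by
    by_contra hcon
    have : M = 1 := by omega
    rw [this, mul_one] at hM
    exact hne hM.symm
  have hPM : (P : ℚ) = M * P₃ := by rw [hM]; push_cast; ring
  have hQK : (Q : ℚ) = K * Q₂ := by rw [hK]; push_cast; ring
  have hcopZ : IsCoprime ((M : ℤ) * P₃) ((K : ℤ) * Q₂) := by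
    have := Nat.isCoprime_iff_coprime.2 hcop
    rw [hM, hK] at this
    push_cast at this
    rw [mul_comm (P₃ : ℤ), mul_comm (Q₂ : ℤ)] at this
    exact this
  have hMc : (0 : ℚ) < M := by exact_mod_cast hMpos
  have hKc : (0 : ℚ) < K := by exact_mod_cast hKpos
  have hE1 : (l₁ - l₁⁻¹) ^ 2 = ((M ^ 2 * P₃ ^ 2 - K ^ 2 * Q₂ ^ 2) / (M * P₃ * (K * Q₂))) ^ 2 := by
    rcases g1 with g | g
    · rw [g, hPM, hQK]; field_simp
    · rw [g, hPM, hQK]; field_simp; ring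
  unfold Eqn at h
  rw [hE1] at h
  rcases g3 with g3 | g3 <;> rcases g2 with g2 | g2
  · -- A
    refine caseA M K P₃ Q₂ (by exact_mod_cast hM1) (by exact_mod_cast hKpos)
      (by exact_mod_cast hP₃0) (by exact_mod_cast hQ₂0) ?_ hcopZ.of_mul_left_left.of_mul_right_left ?_
    · rw [g3, g2, hPM, hQK] at hlt2
      have : (M : ℚ) < K := by
        have h5 : (0 : ℚ) < P₃ * Q₂ := by positivity
        nlinarith
      exact_mod_cast this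
    · have : ((K : ℚ) ^ 2 - M ^ 2) * (P₃ ^ 4 * Q₂ ^ 4 * M ^ 2 * K ^ 2 - 1)
          = (M ^ 2 * P₃ ^ 2 - K ^ 2 * Q₂ ^ 2) ^ 2 := by
        rw [g3, g2, hPM, hQK] at h
        field_simp at h
        linarith
      exact_mod_cast this
  · -- B
    refine caseB M K P₃ Q₂ (by exact_mod_cast hM1) (by exact_mod_cast hKpos)
      (by exact_mod_cast hP₃0) (by exact_mod_cast hQ₂0) hcopZ ?_
    have : ((K : ℚ) ^ 2 * Q₂ ^ 4 - M ^ 2) * (P₃ ^ 4 * M ^ 2 * K ^ 2 - 1)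
        = (M ^ 2 * P₃ ^ 2 - K ^ 2 * Q₂ ^ 2) ^ 2 := by
      rw [g3, g2, hPM, hQK] at h
      field_simp at h
      linarith
    exact_mod_cast this
  · -- C
    refine caseC M K P₃ Q₂ (by exact_mod_cast hM1) (by exact_mod_cast hKpos)
      (by exact_mod_cast hP₃0) ?_ hcopZ ?_
    · rw [g3, g2, hPM, hQK, lt_div_iff₀ hP₃c] at hlt2
      have : (M : ℚ) * P₃ ^ 2 < K := by nlinarith
      exact_mod_cast this
    · have : ((K : ℚ) ^ 2 - M ^ 2 * P₃ ^ 4) * (Q₂ ^ 4 * M ^ 2 * K ^ 2 - 1)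
          = (M ^ 2 * P₃ ^ 2 - K ^ 2 * Q₂ ^ 2) ^ 2 := by
        rw [g3, g2, hPM, hQK] at h
        field_simp at h
        linarith
      exact_mod_cast this
  · -- D
    refine caseD M K P₃ Q₂ (by exact_mod_cast hM1) (by exact_mod_cast hKpos) hcopZ ?_
    have : ((K : ℚ) ^ 2 * Q₂ ^ 4 - M ^ 2 * P₃ ^ 4) * (M ^ 2 * K ^ 2 - 1)
        = (M ^ 2 * P₃ ^ 2 - K ^ 2 * Q₂ ^ 2) ^ 2 := by
      rw [g3, g2, hPM, hQK] at h
      field_simp at h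
      linarith
    exact_mod_cast this

lemma not_dvd_c {p : ℕ} (hp : p.Prime) {A Q : ℕ} (hA : 0 < A) (hQ : ¬ p ∣ Q) {c : ℤ}
    (hc : c = ((p ^ A : ℕ) : ℤ) ^ 4 * Q ^ 4 + 1 ∨ c = ((p ^ A : ℕ) : ℤ) ^ 4 + Q ^ 4) :
    ¬ (p : ℤ) ∣ c := by
  have hp' : Prime (p : ℤ) := Nat.prime_iff_prime_int.1 hp
  have hpA : (p : ℤ) ∣ ((p ^ A : ℕ) : ℤ) ^ 4 := by
    push_cast
    exact Dvd.dvd.pow (dvd_pow_self _ (by omega)) (by norm_num)
  intro h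
  rcases hc with rfl | rfl
  · have h1 := (Int.dvd_add_right (Dvd.dvd.mul_right hpA _)).1 h
    exact hp'.not_dvd_one h1
  · have h1 := (Int.dvd_add_right hpA).1 h
    exact hQ (by exact_mod_cast hp'.dvd_of_dvd_pow h1)

lemma max_twice {p : ℕ} (hp : p.Prime) {A₁ A₂ A₃ Q₁ Q₂ Q₃ : ℕ} {l₁ l₂ l₃ : ℚ}
    (h1p : ¬ p ∣ Q₁) (h2p : ¬ p ∣ Q₂) (h3p : ¬ p ∣ Q₃)
    (f₁ : Form (p ^ A₁) Q₁ l₁) (f₂ : Form (p ^ A₂) Q₂ l₂) (f₃ : Form (p ^ A₃) Q₃ l₃)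
    (s₂ s₃ k : ℤ) (h : E l₁ + s₂ * E l₂ + s₃ * E l₃ = k) (h12 : A₂ < A₁) (h13 : A₃ < A₁) :
    False := by
  have hq : ∀ {Q : ℕ}, ¬ p ∣ Q → 0 < Q := fun {Q} h => Nat.pos_of_ne_zero (by rintro rfl; exact h (dvd_zero _))
  have hpp : ∀ A, 0 < p ^ A := fun A => Nat.pow_pos hp.pos
  obtain ⟨c₁, hc₁, e₁⟩ := E_form (hpp A₁) (hq h1p) f₁
  obtain ⟨c₂, hc₂, e₂⟩ := E_form (hpp A₂) (hq h2p) f₂
  obtain ⟨c₃, hc₃, e₃⟩ := E_form (hpp A₃) (hq h3p) f₃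
  have hnd := not_dvd_c hp (by omega) h1p hc₁
  refine padic_step p hp A₁ A₂ A₃ Q₁ Q₂ Q₃ h2p h3p c₁ (s₂ * c₂) (s₃ * c₃) k hnd h12 h13 ?_
  have : (c₁ : ℚ) * ((p ^ A₂ * Q₂) ^ 2 * (p ^ A₃ * Q₃) ^ 2) + (s₂ * c₂) * ((p ^ A₁ * Q₁) ^ 2 * (p ^ A₃ * Q₃) ^ 2)
      + (s₃ * c₃) * ((p ^ A₁ * Q₁) ^ 2 * (p ^ A₂ * Q₂) ^ 2)
      = k * ((p ^ A₁ * Q₁) ^ 2 * (p ^ A₂ * Q₂) ^ 2 * (p ^ A₃ * Q₃) ^ 2) := by
    rw [← e₁, ← e₂, ← e₃, ← h]
    push_cast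
    ring
  exact_mod_cast this

theorem core {p q : ℕ} (hp : p.Prime) (hq : q.Prime) (hpq : p ≠ q)
    {A₁ A₂ A₃ B₁ B₂ B₃ : ℕ} {l₁ l₂ l₃ : ℚ}
    (f₁ : Form (p ^ A₁) (q ^ B₁) l₁) (f₂ : Form (p ^ A₂) (q ^ B₂) l₂)
    (f₃ : Form (p ^ A₃) (q ^ B₃) l₃)
    (h₁ : 1 < l₁) (h₂ : 1 < l₂) (h₃ : 1 < l₃) (h : Eqn l₁ l₂ l₃) : False := by
  have hpQ : ∀ B, ¬ p ∣ q ^ B := fun B hd =>
    hpq ((Nat.prime_dvd_prime_iff_eq hp hq).1 (hp.dvd_of_dvd_pow hd))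
  have hqP : ∀ A, ¬ q ∣ p ^ A := fun A hd =>
    hpq ((Nat.prime_dvd_prime_iff_eq hq hp).1 (hq.dvd_of_dvd_pow hd)).symm
  have hne1 : l₁ ≠ 0 := by linarith
  have hne2 : l₂ ≠ 0 := by linarith
  have hne3 : l₃ ≠ 0 := by linarith
  have hE : E l₁ + E l₂ = E l₃ + 2 := by
    unfold Eqn at h; unfold E
    have e1 := mul_inv_cancel₀ hne1
    have e2 := mul_inv_cancel₀ hne2
    have e3 := mul_inv_cancel₀ hne3
    linear_combination h + 2 * e1 + 2 * e2 - 2 * e3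
  have mA1 : ¬ (A₂ < A₁ ∧ A₃ < A₁) := fun ⟨a, b⟩ =>
    max_twice hp (hpQ _) (hpQ _) (hpQ _) f₁ f₂ f₃ 1 (-1) 2 (by push_cast; linarith) a b
  have mA2 : ¬ (A₁ < A₂ ∧ A₃ < A₂) := fun ⟨a, b⟩ =>
    max_twice hp (hpQ _) (hpQ _) (hpQ _) f₂ f₁ f₃ 1 (-1) 2 (by push_cast; linarith) a b
  have mA3 : ¬ (A₁ < A₃ ∧ A₂ < A₃) := fun ⟨a, b⟩ =>
    max_twice hp (hpQ _) (hpQ _) (hpQ _) f₃ f₁ f₂ (-1) (-1) (-2) (by push_cast; linarith) a b
  have mB1 : ¬ (B₂ < B₁ ∧ B₃ < B₁) := fun ⟨a, b⟩ =>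
    max_twice hq (hqP _) (hqP _) (hqP _) f₁.symm f₂.symm f₃.symm 1 (-1) 2
      (by push_cast; linarith) a b
  have mB2 : ¬ (B₁ < B₂ ∧ B₃ < B₂) := fun ⟨a, b⟩ =>
    max_twice hq (hqP _) (hqP _) (hqP _) f₂.symm f₁.symm f₃.symm 1 (-1) 2
      (by push_cast; linarith) a b
  have mB3 : ¬ (B₁ < B₃ ∧ B₂ < B₃) := fun ⟨a, b⟩ =>
    max_twice hq (hqP _) (hqP _) (hqP _) f₃.symm f₁.symm f₂.symm (-1) (-1) (-2)
      (by push_cast; linarith) a b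
  have hpp : ∀ A, 0 < p ^ A := fun A => Nat.pow_pos hp.pos
  have hqq : ∀ A, 0 < q ^ A := fun A => Nat.pow_pos hq.pos
  have hcop : ∀ A B, Nat.Coprime (p ^ A) (q ^ B) := fun A B =>
    Nat.Coprime.pow _ _ ((Nat.coprime_primes hp hq).2 hpq)
  have hpne : ∀ {A B : ℕ}, A < B → p ^ A ≠ p ^ B := fun {A B} hlt =>
    (Nat.pow_lt_pow_right hp.one_lt hlt).ne
  have hqne : ∀ {A B : ℕ}, A < B → q ^ A ≠ q ^ B := fun {A B} hlt =>
    (Nat.pow_lt_pow_right hq.one_lt hlt).ne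
  by_cases hA : A₁ ≤ A₃ ∧ A₂ ≤ A₃
  · by_cases hB : B₁ ≤ B₃ ∧ B₂ ≤ B₃
    · -- case I
      refine caseI (hpp A₃) (hqq B₃) (pow_dvd_pow p hA.1) (pow_dvd_pow p hA.2)
        (pow_dvd_pow q hB.1) (pow_dvd_pow q hB.2) f₁ f₂ f₃ h₁ h₂ h₃ ?_ ?_ h
      · by_cases e : A₁ = A₃
        · left; rw [e]
        · right
          have : A₂ = A₃ := by omega
          rw [this]
      · by_cases e : B₁ = B₃
        · left; rw [e]
        · right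
          have : B₂ = B₃ := by omega
          rw [this]
    · -- B₃ is not the maximum, so B₁ = B₂ > B₃
      have hB12 : B₁ = B₂ := by omega
      have hB3 : B₃ < B₁ := by omega
      subst hB12
      by_cases e : A₁ = A₃
      · subst e
        exact caseIIb (hqq B₁) (hpp A₁) (hcop _ _).symm (pow_dvd_pow q hB3.le) (hqne hB3)
          (pow_dvd_pow p hA.2) f₁.symm f₂.symm f₃.symm h₁ h₂ h₃ h
      · have e2 : A₂ = A₃ := by omega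
        subst e2
        exact caseIIb (hqq B₁) (hpp A₂) (hcop _ _).symm (pow_dvd_pow q hB3.le) (hqne hB3)
          (pow_dvd_pow p hA.1) f₂.symm f₁.symm f₃.symm h₂ h₁ h₃ h.symm
  · have hA12 : A₁ = A₂ := by omega
    have hA3 : A₃ < A₁ := by omega
    subst hA12
    by_cases hB : B₁ ≤ B₃ ∧ B₂ ≤ B₃
    · by_cases e : B₁ = B₃
      · subst e
        exact caseIIb (hpp A₁) (hqq B₁) (hcop _ _) (pow_dvd_pow p hA3.le) (hpne hA3)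
          (pow_dvd_pow q hB.2) f₁ f₂ f₃ h₁ h₂ h₃ h
      · have e2 : B₂ = B₃ := by omega
        subst e2
        exact caseIIb (hpp A₁) (hqq B₂) (hcop _ _) (pow_dvd_pow p hA3.le) (hpne hA3)
          (pow_dvd_pow q hB.1) f₂ f₁ f₃ h₂ h₁ h₃ h.symm
    · have hB12 : B₁ = B₂ := by omega
      have hB3 : B₃ < B₁ := by omega
      subst hB12
      exact caseIIa (hpp A₁) (hqq B₁) (pow_dvd_pow p hA3.le) (pow_dvd_pow q hB3.le)
        f₁ f₂ f₃ h₁ h₂ h₃ h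

/-- a natural number with at most two distinct prime factors is `p^a q^b` -/
lemma two_primes {x : ℕ} (hx : 0 < x) (hc : x.primeFactors.card ≤ 2) :
    ∃ p q a b : ℕ, p.Prime ∧ q.Prime ∧ p ≠ q ∧ x = p ^ a * q ^ b := by
  have key : ∃ p q : ℕ, p.Prime ∧ q.Prime ∧ p ≠ q ∧ x.primeFactors ⊆ {p, q} := by
    have h3 : x.primeFactors.card = 0 ∨ x.primeFactors.card = 1 ∨ x.primeFactors.card = 2 := by
      omega
    rcases h3 with h | h | h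
    · rw [Finset.card_eq_zero] at h
      exact ⟨2, 3, Nat.prime_two, Nat.prime_three, by norm_num, by rw [h]; simp⟩
    · obtain ⟨p, hp⟩ := Finset.card_eq_one.1 h
      have hpp : p.Prime := Nat.prime_of_mem_primeFactors (by rw [hp]; simp)
      obtain ⟨q, hq, hqp⟩ := Nat.exists_infinite_primes (p + 1)
      exact ⟨p, q, hpp, hqp, by omega, by rw [hp]; simp⟩
    · obtain ⟨p, q, hne, hpq⟩ := Finset.card_eq_two.1 h
      have hpp : p.Prime := Nat.prime_of_mem_primeFactors (by rw [hpq]; simp)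
      have hqq : q.Prime := Nat.prime_of_mem_primeFactors (by rw [hpq]; simp)
      exact ⟨p, q, hpp, hqq, hne, by rw [hpq]⟩
  obtain ⟨p, q, hp, hq, hpq, hsub⟩ := key
  refine ⟨p, q, x.factorization p, x.factorization q, hp, hq, hpq, ?_⟩
  have h1 := Nat.prod_factorization_pow_eq_self hx.ne'
  have h2 : x.factorization.prod (fun p k => p ^ k) = ∏ r ∈ {p, q}, r ^ x.factorization r := by
    rw [Finsupp.prod_of_support_subset]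
    · rw [Nat.support_factorization]; exact hsub
    · intro i _; simp
  rw [h2, Finset.prod_pair hpq] at h1
  exact h1.symm

lemma form_of_dvd {p q a b s t : ℕ} (hp : p.Prime) (hq : q.Prime)
    (hst : s * t = (p ^ a * q ^ b) ^ 2) (hlt : t < s) :
    ∃ A B : ℕ, Form (p ^ A) (q ^ B) ((s : ℚ) / (p ^ a * q ^ b : ℕ)) := by
  have hppos : (p : ℚ) ≠ 0 := by exact_mod_cast hp.ne_zero
  have hqpos : (q : ℚ) ≠ 0 := by exact_mod_cast hq.ne_zero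
  have hd : s ∣ p ^ (a * 2) * q ^ (b * 2) := by
    refine ⟨t, ?_⟩
    rw [hst, mul_pow, pow_mul, pow_mul]
  obtain ⟨s₁, s₂, h1, h2, h3⟩ := (Nat.dvd_mul).1 hd
  obtain ⟨i, hi, rfl⟩ := (Nat.dvd_prime_pow hp).1 h1
  obtain ⟨j, hj, rfl⟩ := (Nat.dvd_prime_pow hq).1 h2
  subst h3
  rcases le_total a i with hai | hai
  · obtain ⟨A, rfl⟩ := Nat.exists_eq_add_of_le hai
    rcases le_total b j with hbj | hbj
    · obtain ⟨B, rfl⟩ := Nat.exists_eq_add_of_le hbj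
      refine ⟨A, B, Or.inl ?_⟩
      push_cast
      rw [pow_add, pow_add]
      field_simp
    · obtain ⟨B, rfl⟩ := Nat.exists_eq_add_of_le hbj
      refine ⟨A, B, Or.inr (Or.inl ?_)⟩
      push_cast
      rw [pow_add, pow_add]
      field_simp
  · obtain ⟨A, rfl⟩ := Nat.exists_eq_add_of_le hai
    rcases le_total b j with hbj | hbj
    · obtain ⟨B, rfl⟩ := Nat.exists_eq_add_of_le hbj
      refine ⟨A, B, Or.inr (Or.inr ?_)⟩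
      push_cast
      rw [pow_add, pow_add]
      field_simp
    · exfalso
      have h4 : p ^ i * q ^ j ≤ p ^ (i + A) * q ^ b :=
        Nat.mul_le_mul (Nat.pow_le_pow_right hp.pos (by omega)) (Nat.pow_le_pow_right hq.pos hbj)
      have h5 : t < p ^ (i + A) * q ^ b := lt_of_lt_of_le hlt h4
      have h6 : (p ^ i * q ^ j) * t < (p ^ (i + A) * q ^ b) * (p ^ (i + A) * q ^ b) :=
        Nat.mul_lt_mul_of_le_of_lt h4 h5
          (Nat.mul_pos (Nat.pow_pos hp.pos) (Nat.pow_pos hq.pos))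
      rw [hst, sq] at h6
      exact lt_irrefl _ h6

/-- every edge of a perfect cuboid has at least three distinct prime factors -/
theorem edge {x y z u v w d : ℕ} (hx : 0 < x) (hy : 0 < y) (hz : 0 < z)
    (h1 : x ^ 2 + y ^ 2 = u ^ 2) (h2 : x ^ 2 + z ^ 2 = v ^ 2) (h3 : y ^ 2 + z ^ 2 = w ^ 2)
    (h4 : x ^ 2 + y ^ 2 + z ^ 2 = d ^ 2) : 3 ≤ x.primeFactors.card := by
  by_contra hcon
  obtain ⟨p, q, a, b, hp, hq, hpq, hxe⟩ := two_primes hx (by omega : x.primeFactors.card ≤ 2)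
  have hw : 0 < w := by
    rcases Nat.eq_zero_or_pos w with h | h
    · subst h; nlinarith
    · exact h
  have main : ∀ y u : ℕ, 0 < y → x ^ 2 + y ^ 2 = u ^ 2 →
      1 < ((u : ℚ) + y) / x ∧ (((u : ℚ) + y) / x) - (((u : ℚ) + y) / x)⁻¹ = 2 * y / x ∧
      ∃ A B : ℕ, Form (p ^ A) (q ^ B) (((u : ℚ) + y) / x) := by
    intro y u hy h
    have huy : y < u := by nlinarith
    have hux : x < u := by nlinarith
    have hxc : (0 : ℚ) < x := by exact_mod_cast hx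
    have hyc : (0 : ℚ) < y := by exact_mod_cast hy
    have huc : (0 : ℚ) < u := by exact_mod_cast (lt_trans hy huy)
    have hc : (x : ℚ) ^ 2 + y ^ 2 = u ^ 2 := by exact_mod_cast h
    have huxc : (x : ℚ) < u := by exact_mod_cast hux
    refine ⟨?_, ?_, ?_⟩
    · rw [lt_div_iff₀ hxc]; linarith
    · rw [inv_div]
      field_simp
      linear_combination -hc
    · have hst : (u + y) * (u - y) = (p ^ a * q ^ b) ^ 2 := by
        rw [← hxe, ← Nat.sq_sub_sq]; omega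
      obtain ⟨A, B, hf⟩ := form_of_dvd hp hq hst (by omega)
      refine ⟨A, B, ?_⟩
      rw [← hxe] at hf
      push_cast at hf
      exact hf
  obtain ⟨a1, b1, A1, B1, c1⟩ := main y u hy h1
  obtain ⟨a2, b2, A2, B2, c2⟩ := main z v hz h2
  obtain ⟨a3, b3, A3, B3, c3⟩ := main w d hw (by rw [← h3, ← h4]; ring)
  refine core hp hq hpq c1 c2 c3 a1 a2 a3 ?_
  unfold Eqn
  rw [b1, b2, b3]
  have hc : (y : ℚ) ^ 2 + z ^ 2 = w ^ 2 := by exact_mod_cast h3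
  rw [div_pow, div_pow, div_pow, ← add_div]
  congr 1
  linear_combination 4 * hc

/-- primitive version: all three edges of the primitive form -/
theorem edge_gcd {x y z u v w d G : ℕ} (hx : 0 < x) (hy : 0 < y) (hz : 0 < z)
    (h1 : x ^ 2 + y ^ 2 = u ^ 2) (h2 : x ^ 2 + z ^ 2 = v ^ 2) (h3 : y ^ 2 + z ^ 2 = w ^ 2)
    (h4 : x ^ 2 + y ^ 2 + z ^ 2 = d ^ 2) (hG : G = Nat.gcd x (Nat.gcd y z)) :
    3 ≤ (x / G).primeFactors.card ∧ 3 ≤ (y / G).primeFactors.card ∧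
      3 ≤ (z / G).primeFactors.card := by
  have hG0 : 0 < G := by rw [hG]; exact Nat.gcd_pos_of_pos_left _ hx
  obtain ⟨x', hx'⟩ : G ∣ x := by rw [hG]; exact Nat.gcd_dvd_left _ _
  obtain ⟨y', hy'⟩ : G ∣ y := by
    rw [hG]; exact (Nat.gcd_dvd_right _ _).trans (Nat.gcd_dvd_left _ _)
  obtain ⟨z', hz'⟩ : G ∣ z := by
    rw [hG]; exact (Nat.gcd_dvd_right _ _).trans (Nat.gcd_dvd_right _ _)
  clear hG
  have hdv : ∀ {m u : ℕ}, G ^ 2 * m = u ^ 2 → ∃ u', u = G * u' ∧ m = u' ^ 2 := by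
    intro m u h
    have : G ^ 2 ∣ u ^ 2 := ⟨m, h.symm⟩
    obtain ⟨u', rfl⟩ := (Nat.pow_dvd_pow_iff (by norm_num : (2 : ℕ) ≠ 0)).1 this
    refine ⟨u', rfl, ?_⟩
    rw [mul_pow] at h
    exact Nat.eq_of_mul_eq_mul_left (Nat.pow_pos hG0) h
  subst hx' hy' hz'
  obtain ⟨u', -, e1⟩ := hdv (m := x' ^ 2 + y' ^ 2) (u := u) (by rw [← h1]; ring)
  obtain ⟨v', -, e2⟩ := hdv (m := x' ^ 2 + z' ^ 2) (u := v) (by rw [← h2]; ring)
  obtain ⟨w', -, e3⟩ := hdv (m := y' ^ 2 + z' ^ 2) (u := w) (by rw [← h3]; ring)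
  obtain ⟨d', -, e4⟩ := hdv (m := x' ^ 2 + y' ^ 2 + z' ^ 2) (u := d) (by rw [← h4]; ring)
  have hx0 : 0 < x' := Nat.pos_of_mul_pos_left hx
  have hy0 : 0 < y' := Nat.pos_of_mul_pos_left hy
  have hz0 : 0 < z' := Nat.pos_of_mul_pos_left hz
  rw [Nat.mul_div_cancel_left _ hG0, Nat.mul_div_cancel_left _ hG0, Nat.mul_div_cancel_left _ hG0]
  refine ⟨edge hx0 hy0 hz0 e1 e2 e3 e4, ?_, ?_⟩
  · exact edge (x := y') (y := x') (z := z') (u := u') (v := w') (w := v') (d := d') hy0 hx0 hz0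
      (by omega) e3 e2 (by omega)
  · exact edge (x := z') (y := x') (z := y') (u := v') (v := w') (w := u') (d := d') hz0 hx0 hy0
      (by omega) (by omega) e1 (by omega)

end Pool.Agent.H94.Cuboid
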