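import Pool.Agent.H94.Cuboid

/-!
# The odd-valued system and perfect cuboids
-/

namespace Pool.Agent.H94.Cuboid

/-- Any positive solution of the system gives a box all of whose edges, in primitive form, have at
least three distinct prime factors. -/
theorem system_three_primes (n b c e f g h k l G : ℕ) (hn : 0 < n) (hb : 0 < b) (hc : 0 < c)
    (hg : 0 < g) (hh : 0 < h) (hk : 0 < k) (hl : 0 < l)
    (h1 : (n : ℤ) = (e : ℤ) ^ 2 - (f : ℤ) ^ 2)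
    (h2 : (n : ℤ) = (b : ℤ) * ((g : ℤ) ^ 2 - (h : ℤ) ^ 2))
    (h3 : (n : ℤ) = (c : ℤ) * ((k : ℤ) ^ 2 - (l : ℤ) ^ 2))
    (h4 : e ^ 2 * f ^ 2 = b ^ 2 * g ^ 2 * h ^ 2 + c ^ 2 * k ^ 2 * l ^ 2)
    (hG : G = Nat.gcd n (Nat.gcd (2 * b * g * h) (2 * c * k * l))) :
    3 ≤ (n / G).primeFactors.card ∧ 3 ≤ (2 * b * g * h / G).primeFactors.card ∧
      3 ≤ (2 * c * k * l / G).primeFactors.card := by
  have h4' : (e : ℤ) ^ 2 * f ^ 2 = b ^ 2 * g ^ 2 * h ^ 2 + c ^ 2 * k ^ 2 * l ^ 2 := by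
    exact_mod_cast h4
  refine edge_gcd (x := n) (y := 2 * b * g * h) (z := 2 * c * k * l)
    (u := b * (g ^ 2 + h ^ 2)) (v := c * (k ^ 2 + l ^ 2)) (w := 2 * e * f) (d := e ^ 2 + f ^ 2)
    hn (by positivity) (by positivity) ?_ ?_ ?_ ?_ hG
  · have : (n : ℤ) ^ 2 + (2 * b * g * h) ^ 2 = (b * (g ^ 2 + h ^ 2)) ^ 2 := by
      rw [h2]; ring
    exact_mod_cast this
  · have : (n : ℤ) ^ 2 + (2 * c * k * l) ^ 2 = (c * (k ^ 2 + l ^ 2)) ^ 2 := by
      rw [h3]; ring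
    exact_mod_cast this
  · have : (2 * b * g * h : ℤ) ^ 2 + (2 * c * k * l) ^ 2 = (2 * e * f) ^ 2 := by
      linear_combination -4 * h4'
    exact_mod_cast this
  · have : (n : ℤ) ^ 2 + (2 * b * g * h : ℤ) ^ 2 + (2 * c * k * l) ^ 2 = (e ^ 2 + f ^ 2) ^ 2 := by
      rw [h1]; linear_combination -4 * h4'
    exact_mod_cast this

/-- A perfect cuboid. -/
def IsPerfectCuboid (x y z : ℕ) : Prop :=
  0 < x ∧ 0 < y ∧ 0 < z ∧ IsSquare (x ^ 2 + y ^ 2) ∧ IsSquare (x ^ 2 + z ^ 2) ∧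
    IsSquare (y ^ 2 + z ^ 2) ∧ IsSquare (x ^ 2 + y ^ 2 + z ^ 2)

/-- The system of the problem. -/
def System (n b c e f g h k l : ℕ) : Prop :=
  Odd n ∧ 1 < b ∧ 1 < c ∧ 1 < e ∧ 1 < f ∧ 1 < g ∧ 1 < h ∧ 1 < k ∧ 1 < l ∧
      (n : ℤ) = (e : ℤ) ^ 2 - (f : ℤ) ^ 2 ∧
      (n : ℤ) = (b : ℤ) * ((g : ℤ) ^ 2 - (h : ℤ) ^ 2) ∧
      (n : ℤ) = (c : ℤ) * ((k : ℤ) ^ 2 - (l : ℤ) ^ 2) ∧
      e ^ 2 * f ^ 2 = b ^ 2 * g ^ 2 * h ^ 2 + c ^ 2 * k ^ 2 * l ^ 2

/-- two odd squares do not sum to a square -/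
lemma not_both_odd {x y u : ℕ} (hx : Odd x) (hy : Odd y) (h : x ^ 2 + y ^ 2 = u ^ 2) : False := by
  obtain ⟨a, rfl⟩ := hx
  obtain ⟨b, rfl⟩ := hy
  have h1 : ((2 * a + 1) ^ 2 + (2 * b + 1) ^ 2) % 4 = 2 := by
    have : (2 * a + 1) ^ 2 + (2 * b + 1) ^ 2 = 4 * (a ^ 2 + a + b ^ 2 + b) + 2 := by ring
    rw [this]; omega
  rw [h] at h1
  rcases Nat.even_or_odd u with ⟨c, rfl⟩ | ⟨c, rfl⟩
  · have : (c + c) ^ 2 = 4 * (c ^ 2) := by ring
    rw [this] at h1; omega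
  · have : (2 * c + 1) ^ 2 = 4 * (c ^ 2 + c) + 1 := by ring
    rw [this] at h1; omega

/-- from a cuboid with an odd edge to the system -/
lemma system_of_odd {x y z u v w d : ℕ} (hx : Odd x) (hy : 0 < y) (hz : 0 < z)
    (h1 : x ^ 2 + y ^ 2 = u ^ 2) (h2 : x ^ 2 + z ^ 2 = v ^ 2) (h3 : y ^ 2 + z ^ 2 = w ^ 2)
    (h4 : x ^ 2 + y ^ 2 + z ^ 2 = d ^ 2) : ∃ n b c e f g h k l, System n b c e f g h k l := by
  have hx0 : 0 < x := hx.pos
  have hw : 0 < w := by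
    rcases Nat.eq_zero_or_pos w with h | h
    · subst h; nlinarith
    · exact h
  have h4' : x ^ 2 + w ^ 2 = d ^ 2 := by rw [← h3, ← h4]; ring
  -- the half-sums
  have main : ∀ y u : ℕ, 0 < y → x ^ 2 + y ^ 2 = u ^ 2 →
      ∃ g h : ℕ, 1 < g ∧ 1 < h ∧ Odd (u + y) ∧ 1 < u + y ∧
        (g : ℤ) ^ 2 - h ^ 2 = (u + y) * x ∧ (2 * g * h : ℤ) = (u + y) * y := by
    intro y u hy h
    have hye : Even y := by
      by_contra hcon
      exact not_both_odd hx (Nat.not_even_iff_odd.1 hcon) h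
    have huo : Odd u := by
      have : Odd (u ^ 2) := by
        rw [← h]; exact Odd.add_even hx.pow (hye.pow_of_ne_zero (by norm_num))
      exact (Nat.odd_pow_iff (by norm_num)).1 this
    have hux : x < u := by nlinarith
    obtain ⟨s, hs⟩ := hx
    obtain ⟨r, hr⟩ := hye
    obtain ⟨t, ht⟩ := huo
    have hr0 : 0 < r := by omega
    have hst : s < t := by omega
    refine ⟨t + r + s + 1, t + r - s, by omega, by omega, ⟨t + r, by omega⟩, by omega, ?_, ?_⟩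
    · have e1 : ((t + r - s : ℕ) : ℤ) = t + r - s := by
        rw [Nat.cast_sub (by omega)]; push_cast; ring
      rw [e1, hs, hr, ht]; push_cast; ring
    · have e1 : ((t + r - s : ℕ) : ℤ) = t + r - s := by
        rw [Nat.cast_sub (by omega)]; push_cast; ring
      have hZ : (x : ℤ) ^ 2 + y ^ 2 = u ^ 2 := by exact_mod_cast h
      rw [hs, hr, ht] at hZ
      push_cast at hZ
      rw [e1, hr, ht]; push_cast
      have key : 2 * (2 * ((t : ℤ) + r + s + 1) * (t + r - s)) =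
          2 * ((2 * t + 1 + (r + r)) * (r + r)) := by linear_combination -hZ
      linarith
  obtain ⟨g, h, hg, hh, hso1, hs1, hgh1, hgh2⟩ := main y u hy h1
  obtain ⟨k, l, hk, hl, hso2, hs2, hkl1, hkl2⟩ := main z v hz h2
  obtain ⟨e₀, f₀, he, hf, hso3, hs3, hef1, hef2⟩ := main w d hw h4'
  set S := u + y with hS
  set T := v + z with hT
  set R := d + w with hR
  -- scaling factor μ = S^2 T^2 R
  refine ⟨S ^ 2 * T ^ 2 * R * x, S * T ^ 2 * R, S ^ 2 * T * R, S * T * e₀, S * T * f₀, g, h, k, l,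
    ?_, ?_, ?_, ?_, ?_, hg, hh, hk, hl, ?_, ?_, ?_, ?_⟩
  · exact (((hso1.pow).mul (hso2.pow)).mul hso3).mul hx
  · calc 1 < S := hs1
      _ ≤ S * (T ^ 2 * R) := Nat.le_mul_of_pos_right _ (by positivity)
      _ = S * T ^ 2 * R := by ring
  · calc 1 < T := hs2
      _ ≤ T * (S ^ 2 * R) := Nat.le_mul_of_pos_right _ (by positivity)
      _ = S ^ 2 * T * R := by ring
  · calc 1 < S := hs1
      _ ≤ S * (T * e₀) := Nat.le_mul_of_pos_right _ (by positivity)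
      _ = S * T * e₀ := by ring
  · calc 1 < S := hs1
      _ ≤ S * (T * f₀) := Nat.le_mul_of_pos_right _ (by positivity)
      _ = S * T * f₀ := by ring
  · have e3 : ((R : ℕ) : ℤ) = d + w := by rw [hR]; push_cast; ring
    push_cast
    rw [← e3] at hef1
    linear_combination (-(S : ℤ) ^ 2 * T ^ 2) * hef1
  · have e3 : ((S : ℕ) : ℤ) = u + y := by rw [hS]; push_cast; ring
    push_cast
    rw [← e3] at hgh1
    linear_combination (-(S : ℤ) * T ^ 2 * R) * hgh1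
  · have e3 : ((T : ℕ) : ℤ) = v + z := by rw [hT]; push_cast; ring
    push_cast
    rw [← e3] at hkl1
    linear_combination (-(S : ℤ) ^ 2 * T * R) * hkl1
  · have e1 : ((R : ℕ) : ℤ) = d + w := by rw [hR]; push_cast; ring
    have e2 : ((S : ℕ) : ℤ) = u + y := by rw [hS]; push_cast; ring
    have e3 : ((T : ℕ) : ℤ) = v + z := by rw [hT]; push_cast; ring
    rw [← e1] at hef2
    rw [← e2] at hgh2
    rw [← e3] at hkl2
    have h3' : (y : ℤ) ^ 2 + z ^ 2 = w ^ 2 := by exact_mod_cast h3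
    have key : 4 * ((S * T * e₀ : ℤ) ^ 2 * (S * T * f₀) ^ 2) =
        4 * ((S * T ^ 2 * R) ^ 2 * g ^ 2 * h ^ 2 + (S ^ 2 * T * R) ^ 2 * k ^ 2 * l ^ 2) := by
      have a1 : 4 * ((S * T * e₀ : ℤ) ^ 2 * (S * T * f₀) ^ 2) = (S ^ 2 * T ^ 2 * (2 * e₀ * f₀)) ^ 2 := by
        ring
      have a2 : 4 * ((S * T ^ 2 * R : ℤ) ^ 2 * g ^ 2 * h ^ 2 + (S ^ 2 * T * R) ^ 2 * k ^ 2 * l ^ 2) =
        (S * T ^ 2 * R * (2 * g * h)) ^ 2 + (S ^ 2 * T * R * (2 * k * l)) ^ 2 := by ring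
      rw [a1, a2, hef2, hgh2, hkl2]
      linear_combination (-(S : ℤ) ^ 4 * T ^ 4 * R ^ 2) * h3'
    have key2 : (S * T * e₀ : ℤ) ^ 2 * (S * T * f₀) ^ 2 =
        (S * T ^ 2 * R) ^ 2 * g ^ 2 * h ^ 2 + (S ^ 2 * T * R) ^ 2 * k ^ 2 * l ^ 2 := by linarith
    exact_mod_cast key2

/-- every perfect cuboid gives a solution of the system -/
theorem exists_system_of_cuboid : ∀ x y z : ℕ, IsPerfectCuboid x y z →
    ∃ n b c e f g h k l, System n b c e f g h k l := by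
  intro x
  induction x using Nat.strong_induction_on with
  | _ x ih =>
    intro y z ⟨hx, hy, hz, ⟨u, h1⟩, ⟨v, h2⟩, ⟨w, h3⟩, ⟨d, h4⟩⟩
    rw [← sq] at h1 h2 h3 h4
    rcases Nat.even_or_odd x with hxe | hxo
    swap
    · exact system_of_odd hxo hy hz h1 h2 h3 h4
    rcases Nat.even_or_odd y with hye | hyo
    swap
    · exact system_of_odd (x := y) (y := x) (z := z) (u := u) (v := w) (w := v) (d := d)
        hyo hx hz (by omega) h3 h2 (by omega)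
    rcases Nat.even_or_odd z with hze | hzo
    swap
    · exact system_of_odd (x := z) (y := x) (z := y) (u := v) (v := w) (w := u) (d := d)
        hzo hx hy (by omega) (by omega) h1 (by omega)
    have hh : ∀ {m u : ℕ}, 4 * m = u ^ 2 → IsSquare m := by
      intro m u h
      have : 2 ^ 2 ∣ u ^ 2 := ⟨m, by omega⟩
      obtain ⟨u', rfl⟩ := (Nat.pow_dvd_pow_iff (by norm_num : (2 : ℕ) ≠ 0)).1 this
      refine ⟨u', ?_⟩
      have : 4 * m = 4 * (u' * u') := by rw [h]; ring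
      omega
    obtain ⟨a, rfl⟩ := hxe
    obtain ⟨b, rfl⟩ := hye
    obtain ⟨c, rfl⟩ := hze
    exact ih a (by omega) b c ⟨by omega, by omega, by omega,
      hh (u := u) (by rw [← h1]; ring), hh (u := v) (by rw [← h2]; ring),
      hh (u := w) (by rw [← h3]; ring), hh (u := d) (by rw [← h4]; ring)⟩

/-- every solution gives a perfect cuboid -/
theorem cuboid_of_system {n b c e f g h k l : ℕ} (H : System n b c e f g h k l) :
    IsPerfectCuboid n (2 * b * g * h) (2 * c * k * l) := by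
  obtain ⟨hn, hb, hc, he, hf, hg, hh, hk, hl, h1, h2, h3, h4⟩ := H
  have h4' : (e : ℤ) ^ 2 * f ^ 2 = b ^ 2 * g ^ 2 * h ^ 2 + c ^ 2 * k ^ 2 * l ^ 2 := by
    exact_mod_cast h4
  refine ⟨hn.pos, by positivity, by positivity, ⟨b * (g ^ 2 + h ^ 2), ?_⟩,
    ⟨c * (k ^ 2 + l ^ 2), ?_⟩, ⟨2 * e * f, ?_⟩, ⟨e ^ 2 + f ^ 2, ?_⟩⟩
  · have : (n : ℤ) ^ 2 + (2 * b * g * h) ^ 2 = (b * (g ^ 2 + h ^ 2)) * (b * (g ^ 2 + h ^ 2)) := by
      rw [h2]; ring
    exact_mod_cast this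
  · have : (n : ℤ) ^ 2 + (2 * c * k * l) ^ 2 = (c * (k ^ 2 + l ^ 2)) * (c * (k ^ 2 + l ^ 2)) := by
      rw [h3]; ring
    exact_mod_cast this
  · have : (2 * b * g * h : ℤ) ^ 2 + (2 * c * k * l) ^ 2 = (2 * e * f) * (2 * e * f) := by
      linear_combination -4 * h4'
    exact_mod_cast this
  · have : (n : ℤ) ^ 2 + (2 * b * g * h : ℤ) ^ 2 + (2 * c * k * l) ^ 2 =
        (e ^ 2 + f ^ 2) * (e ^ 2 + f ^ 2) := by
      rw [h1]; linear_combination -4 * h4'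
    exact_mod_cast this

end Pool.Agent.H94.Cuboid
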