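import Mathlib
import Pool.Prelude.Def_F_c5c4fee9

/-!
# Least prime factors of Fermat numbers along multiples of `4 lcm(1,...,J)`
-/

namespace Pool.Agent.H94.FermatSmall

/-- If `4 lcm(1,…,J)` divides `n > 0`, every prime factor of the `n`-th Fermat number is at least
`(J+1) 2^(n+2) + 1`. -/
theorem prime_factor_ge (J n p : ℕ) (hn : 0 < n) (hL : 4 * Nat.lcmUpto J ∣ n) (hp : p.Prime)
    (hpn : p ∣ Nat.fermatNumber n) : (J + 1) * 2 ^ (n + 2) + 1 ≤ p := by
  have h4n : 4 ∣ n := (Dvd.intro _ rfl).trans hL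
  have hn4 : 4 ≤ n := Nat.le_of_dvd hn h4n
  obtain ⟨k, hk⟩ := Nat.fermat_primeFactors_one_lt n p (by omega) hp hpn
  by_contra hcon
  push Not at hcon
  have hkJ : k ≤ J := by
    by_contra h
    push Not at h
    have : (J + 1) * 2 ^ (n + 2) ≤ k * 2 ^ (n + 2) := Nat.mul_le_mul_right _ h
    omega
  have hk0 : 0 < k := by
    rcases Nat.eq_zero_or_pos k with h | h
    · subst h
      rw [zero_mul, zero_add] at hk
      exact absurd hk hp.one_lt.ne'
    · exact h
  have hdvd_lcm : ∀ j, 0 < j → j ≤ J → j ∣ Nat.lcmUpto J := fun j h1 h2 =>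
    Finset.dvd_lcm (f := id) (Finset.mem_Icc.2 ⟨h1, h2⟩)
  set m := 4 * k + 1 with hm
  set q := m.minFac with hq
  have hqp : q.Prime := Nat.minFac_prime (by omega)
  have hqm : q ∣ m := Nat.minFac_dvd m
  have hqle : q ≤ m := Nat.le_of_dvd (by omega) hqm
  have hqodd : q % 2 = 1 := by
    obtain ⟨c, hc⟩ := hqm
    rcases Nat.mod_two_eq_zero_or_one q with h | h
    · exfalso
      obtain ⟨e, he⟩ : 2 ∣ q := Nat.dvd_of_mod_eq_zero h
      rw [he, mul_assoc] at hc
      omega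
    · exact h
  -- `q - 1` divides `n`
  have hqn : q - 1 ∣ n := by
    refine Dvd.dvd.trans ?_ hL
    have : q % 4 = 1 ∨ q % 4 = 3 := by omega
    rcases this with h | h
    · obtain ⟨r, hr⟩ : ∃ r, q = 4 * r + 1 := ⟨q / 4, by omega⟩
      have hr0 : 0 < r := by
        rcases Nat.eq_zero_or_pos r with h | h
        · subst h; exact absurd hr hqp.one_lt.ne'
        · exact h
      rw [hr, Nat.add_sub_cancel]
      exact Nat.mul_dvd_mul_left 4 (hdvd_lcm r hr0 (by omega))
    · obtain ⟨s, hs⟩ : ∃ s, q = 2 * s + 1 := ⟨q / 2, by omega⟩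
      have hs0 : 0 < s := by omega
      have hnp : ¬ m.Prime := by
        intro hpr
        have : q = m := Nat.Prime.minFac_eq hpr
        omega
      have hsq := Nat.minFac_sq_le_self (by omega) hnp
      rw [← hq, hs] at hsq
      have hsk : s ≤ k := by nlinarith
      rw [hs, Nat.add_sub_cancel]
      exact Nat.mul_dvd_mul (by norm_num) (hdvd_lcm s hs0 (by omega))
  have : Fact q.Prime := ⟨hqp⟩
  have h2 : (2 : ZMod q) ≠ 0 := by
    intro h
    have h' : ((2 : ℕ) : ZMod q) = 0 := by exact_mod_cast h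
    rw [ZMod.natCast_eq_zero_iff] at h'
    have := Nat.le_of_dvd (by norm_num) h'
    have := hqp.two_le
    have : q = 2 := by omega
    omega
  have h2n : (2 : ZMod q) ^ n = 1 := by
    obtain ⟨c, hc⟩ := hqn
    rw [hc, pow_mul, ZMod.pow_card_sub_one_eq_one h2, one_pow]
  have hqdp : q ∣ p := by
    rw [← ZMod.natCast_eq_zero_iff, hk]
    push_cast
    rw [pow_add, h2n, one_mul]
    have hm0 : ((m : ℕ) : ZMod q) = 0 := (ZMod.natCast_eq_zero_iff _ _).2 hqm
    rw [hm] at hm0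
    push_cast at hm0
    rw [← hm0]; ring
  have hqp' : q = p := (Nat.prime_dvd_prime_iff_eq hqp hp).1 hqdp
  have h2n' : 1 < 2 ^ n := Nat.one_lt_two_pow (by omega)
  have : k * 2 ^ (n + 2) = 4 * k * 2 ^ n := by rw [pow_add]; ring
  have h3 : 4 * k * 1 < 4 * k * 2 ^ n := Nat.mul_lt_mul_of_pos_left h2n' (by omega)
  omega

open Chebyshev in
theorem main (J : ℕ) : ∃ L : ℕ, 0 < L ∧ Real.log L ≤ (Real.log 4 + 4) * J + Real.log 4 ∧
    ∀ n : ℕ, 0 < n → L ∣ n →
      (J + 1) * 2 ^ (n + 2) < (Nat.fermatNumber n).minFac ∧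
      N53924c76.a n + (n + 2 + Nat.log 2 (J + 1)) ≤ 2 ^ n := by
  refine ⟨4 * Nat.lcmUpto J, Nat.mul_pos (by norm_num) (Nat.lcmUpto_pos J), ?_, ?_⟩
  · push_cast
    rw [Real.log_mul (by norm_num) (by exact_mod_cast (Nat.lcmUpto_ne_zero J)),
      ← Chebyshev.psi_eq_log_lcmUpto]
    have := psi_le_const_mul_self (x := (J : ℝ)) (by positivity)
    linarith
  · intro n hn hL
    have hp : (Nat.fermatNumber n).minFac.Prime := Nat.minFac_prime (Nat.fermatNumber_ne_one n)
    have h1 := prime_factor_ge J n _ hn hL hp (Nat.minFac_dvd _)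
    refine ⟨by omega, ?_⟩
    have hle : (Nat.fermatNumber n).minFac ≤ 2 ^ (2 ^ n) + 1 :=
      Nat.minFac_le (by have := Nat.three_le_fermatNumber n; omega)
    have hlog : n + 2 + Nat.log 2 (J + 1) ≤ Nat.log 2 (Nat.fermatNumber n).minFac := by
      rw [Nat.le_log_iff_pow_le (by norm_num) hp.ne_zero]
      have e1 : 2 ^ Nat.log 2 (J + 1) ≤ J + 1 := Nat.pow_log_le_self 2 (by omega)
      calc 2 ^ (n + 2 + Nat.log 2 (J + 1)) = 2 ^ Nat.log 2 (J + 1) * 2 ^ (n + 2) := by
            rw [pow_add, mul_comm]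
        _ ≤ (J + 1) * 2 ^ (n + 2) := Nat.mul_le_mul_right _ e1
        _ ≤ _ := by omega
    have hlog2 : Nat.log 2 (Nat.fermatNumber n).minFac ≤ 2 ^ n := by
      have h2 : (Nat.fermatNumber n).minFac < 2 ^ (2 ^ n + 1) := by
        have : 1 < 2 ^ (2 ^ n) := Nat.one_lt_two_pow (by positivity)
        rw [pow_succ]; omega
      have := Nat.log_lt_of_lt_pow (b := 2) hp.ne_zero h2
      omega
    unfold N53924c76.a
    simp only [Nat.log2_eq_log_two]
    omega

end Pool.Agent.H94.FermatSmall
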