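import Mathlib

/-!
# Sun's congruence for weighted sums of power sums of binomial coefficients

We prove that for all `r n : ℕ`, `2 n` divides
`∑_{k<n} (-1)^(r k) (3 k + 2) ∑_{j ≤ k} (k choose j)^r`.
The case `r = 4` is the posed question.

The proof is by a `q`-analogue.  With `B(i,j)` the Gaussian binomial `[i+j choose i]_q` put
`N(i,j) = (-1)^(i+j) q^(i(i+1)/2 + j(j+1)/2) B(i,j)`.  At a primitive `d`-th root of unity the
function `N` is invariant under exchanging the lowest base-`d` digits of `i` and of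
`l = n - 1 - i - j`, for `d ∣ n`.
-/

namespace Pool.Agent.H94.SunFourth

open Finset

section General

variable {R : Type*} [CommRing R]

/-- Gaussian binomial coefficient `[i+j choose i]_q`, by the `q`-Pascal rule. -/
def qb (q : R) : ℕ → ℕ → R
  | 0, _ => 1
  | _ + 1, 0 => 1
  | i + 1, j + 1 => qb q i (j + 1) + q ^ (i + 1) * qb q (i + 1) j
termination_by i j => i + j

@[simp] lemma qb_zero_left (q : R) (j : ℕ) : qb q 0 j = 1 := by
  rw [qb]

@[simp] lemma qb_zero_right (q : R) (i : ℕ) : qb q i 0 = 1 := by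
  cases i <;> rw [qb]

lemma qb_succ_succ (q : R) (i j : ℕ) :
    qb q (i + 1) (j + 1) = qb q i (j + 1) + q ^ (i + 1) * qb q (i + 1) j := by
  rw [qb]

lemma map_qb {S : Type*} [CommRing S] (f : R →+* S) (q : R) (i j : ℕ) :
    f (qb q i j) = qb (f q) i j := by
  induction i generalizing j with
  | zero => simp
  | succ i ih =>
    induction j with
    | zero => simp
    | succ j ihj =>
      rw [qb_succ_succ, qb_succ_succ, map_add, map_mul, map_pow, ih, ihj]

lemma qb_one (i j : ℕ) : qb (1 : R) i j = ((i + j).choose i : R) := by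
  induction i generalizing j with
  | zero => simp
  | succ i ih =>
    induction j with
    | zero => simp
    | succ j ihj =>
      rw [qb_succ_succ, ih, ihj, one_pow, one_mul]
      rw [show i + 1 + (j + 1) = (i + (j + 1)) + 1 by ring, Nat.choose_succ_succ,
        show i + 1 + j = i + (j + 1) by ring]
      push_cast
      ring

lemma qb_PQ (q : R) (i : ℕ) :
    (∀ j, qb q i (j + 1) * (1 - q ^ (j + 1)) = qb q i j * (1 - q ^ (i + j + 1))) ∧
    (∀ j, qb q (i + 1) j * (1 - q ^ (i + 1)) = qb q i j * (1 - q ^ (i + j + 1))) := by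
  induction i with
  | zero =>
    refine ⟨fun j => by simp, fun j => ?_⟩
    induction j with
    | zero => simp
    | succ j ih =>
      rw [qb_succ_succ]
      have h : qb q (0 + 1) j * (1 - q ^ (0 + 1)) = qb q 0 j * (1 - q ^ (0 + j + 1)) := ih
      rw [qb_zero_left] at h ⊢
      have e : (1 + q ^ (0 + 1) * qb q (0 + 1) j) * (1 - q ^ (0 + 1))
        = (1 - q ^ (0 + 1)) + q ^ (0 + 1) * (qb q (0 + 1) j * (1 - q ^ (0 + 1))) := by ring
      rw [e, h]
      ring
  | succ i ih =>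
    obtain ⟨hP, hQ⟩ := ih
    have hP' : ∀ j, qb q (i + 1) (j + 1) * (1 - q ^ (j + 1))
        = qb q (i + 1) j * (1 - q ^ (i + 1 + j + 1)) := by
      intro j
      rw [qb_succ_succ]
      have e : (qb q i (j + 1) + q ^ (i + 1) * qb q (i + 1) j) * (1 - q ^ (j + 1))
        = qb q i (j + 1) * (1 - q ^ (j + 1))
          + q ^ (i + 1) * qb q (i + 1) j * (1 - q ^ (j + 1)) := by ring
      rw [e, hP j, ← hQ j]
      ring
    refine ⟨hP', fun j => ?_⟩
    induction j with
    | zero => simp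
    | succ j ihj =>
      rw [qb_succ_succ]
      have e : (qb q (i + 1) (j + 1) + q ^ (i + 1 + 1) * qb q (i + 1 + 1) j)
          * (1 - q ^ (i + 1 + 1))
        = qb q (i + 1) (j + 1) * (1 - q ^ (i + 1 + 1))
          + q ^ (i + 1 + 1) * (qb q (i + 1 + 1) j * (1 - q ^ (i + 1 + 1))) := by ring
      rw [e, ihj, ← hP' j]
      ring

lemma qb_P (q : R) (i j : ℕ) :
    qb q i (j + 1) * (1 - q ^ (j + 1)) = qb q i j * (1 - q ^ (i + j + 1)) := (qb_PQ q i).1 j

lemma qb_Q (q : R) (i j : ℕ) :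
    qb q (i + 1) j * (1 - q ^ (i + 1)) = qb q i j * (1 - q ^ (i + j + 1)) := (qb_PQ q i).2 j

/-- The normalised Gaussian binomial. -/
def nb (q : R) (i j : ℕ) : R :=
  (-1) ^ (i + j) * q ^ ((i + 1).choose 2 + (j + 1).choose 2) * qb q i j

lemma map_nb {S : Type*} [CommRing S] (f : R →+* S) (q : R) (i j : ℕ) :
    f (nb q i j) = nb (f q) i j := by
  simp [nb, map_qb]

lemma nb_one (i j : ℕ) : nb (1 : R) i j = (-1) ^ (i + j) * ((i + j).choose i : R) := by
  simp [nb, qb_one]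

lemma choose_two_succ (i : ℕ) : (i + 1 + 1).choose 2 = (i + 1).choose 2 + (i + 1) := by
  rw [Nat.choose_succ_succ' (i + 1) 1, Nat.choose_one_right]; ring

lemma nb_P (q : R) (i j : ℕ) :
    nb q i (j + 1) * (1 - q ^ (j + 1)) = -q ^ (j + 1) * (nb q i j * (1 - q ^ (i + j + 1))) := by
  have h := qb_P q i j
  unfold nb
  rw [choose_two_succ]
  have e : (-1 : R) ^ (i + (j + 1)) * q ^ ((i + 1).choose 2 + ((j + 1).choose 2 + (j + 1)))
      * qb q i (j + 1) * (1 - q ^ (j + 1))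
      = (-1 : R) ^ (i + (j + 1)) * q ^ ((i + 1).choose 2 + ((j + 1).choose 2 + (j + 1)))
      * (qb q i (j + 1) * (1 - q ^ (j + 1))) := by ring
  rw [e, h]
  ring

lemma nb_Q (q : R) (i j : ℕ) :
    nb q (i + 1) j * (1 - q ^ (i + 1)) = -q ^ (i + 1) * (nb q i j * (1 - q ^ (i + j + 1))) := by
  have h := qb_Q q i j
  unfold nb
  rw [choose_two_succ]
  have e : (-1 : R) ^ (i + 1 + j) * q ^ ((i + 1).choose 2 + (i + 1) + (j + 1).choose 2)
      * qb q (i + 1) j * (1 - q ^ (i + 1))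
      = (-1 : R) ^ (i + 1 + j) * q ^ ((i + 1).choose 2 + (i + 1) + (j + 1).choose 2)
      * (qb q (i + 1) j * (1 - q ^ (i + 1))) := by ring
  rw [e, h]
  ring

end General

section RootOfUnity

variable {K : Type*} [Field K] {ζ : K} {d : ℕ}

lemma one_sub_pow_ne (hζ : IsPrimitiveRoot ζ d) {j : ℕ} (h0 : 0 < j) (hj : j < d) :
    (1 : K) - ζ ^ j ≠ 0 := by
  rw [sub_ne_zero]
  exact (hζ.pow_ne_one_of_pos_of_lt h0.ne' hj).symm

/-- vanishing when there is a carry -/
lemma qb_eq_zero (hζ : IsPrimitiveRoot ζ d) {i j : ℕ} (hi : i < d) (hj : j < d)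
    (hij : d ≤ i + j) : qb ζ i j = 0 := by
  induction j with
  | zero => omega
  | succ j ih =>
    have h := qb_P ζ i j
    have hne := one_sub_pow_ne hζ (Nat.succ_pos j) hj
    have : qb ζ i j * (1 - ζ ^ (i + j + 1)) = 0 := by
      rcases Nat.lt_or_ge (i + j) d with h1 | h1
      · have : i + j + 1 = d := by omega
        rw [this, hζ.pow_eq_one]; simp
      · rw [ih (by omega) h1, zero_mul]
    rw [this] at h
    exact (mul_eq_zero.1 h).resolve_right hne

lemma nb_base (hζ : IsPrimitiveRoot ζ d) (hd : 0 < d) : nb ζ (d - 1) 0 = 1 := by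
  unfold nb
  rw [qb_zero_right]
  have h1 : d - 1 + 1 = d := by omega
  rw [h1]
  simp only [add_zero, zero_add, mul_one]
  rcases Nat.even_or_odd d with he | ho
  · obtain ⟨e, he⟩ := he
    have he2 : d = 2 * e := by omega
    have hepos : 0 < e := by omega
    have hneg : ζ ^ e = -1 := by
      have hsq : ζ ^ e * ζ ^ e = 1 := by rw [← pow_add, ← he, hζ.pow_eq_one]
      have hne : ζ ^ e ≠ 1 := hζ.pow_ne_one_of_pos_of_lt hepos.ne' (by omega)
      rcases mul_self_eq_one_iff.1 hsq with h | h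
      · exact absurd h hne
      · exact h
    have hc : d.choose 2 = e * (d - 1) := by
      rw [Nat.choose_two_right, he2, mul_assoc, Nat.mul_div_cancel_left _ (by norm_num : 0 < 2)]
    have hc1 : Nat.choose 1 2 = 0 := rfl
    rw [hc, hc1, add_zero, pow_mul, hneg, ← mul_pow]
    norm_num
  · obtain ⟨e, he⟩ := ho
    have hc : d.choose 2 = d * e := by
      rw [Nat.choose_two_right, show d - 1 = 2 * e by omega, show d * (2 * e) = 2 * (d * e) by ring,
        Nat.mul_div_cancel_left _ (by norm_num : 0 < 2)]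
    have hc1 : Nat.choose 1 2 = 0 := rfl
    rw [hc, hc1, add_zero, pow_mul, hζ.pow_eq_one, one_pow, show d - 1 = 2 * e by omega, pow_mul]
    norm_num

lemma nb_small_zero (hζ : IsPrimitiveRoot ζ d) {i l : ℕ} (h : i + l + 1 = d) :
    nb ζ i 0 = nb ζ l 0 := by
  induction i generalizing l with
  | zero =>
    have := nb_base hζ (by omega)
    rw [show d - 1 = l by omega] at this
    rw [this]; simp [nb]
  | succ i ih =>
    have ih' := ih (l := l + 1) (by omega)
    have h1 := nb_Q ζ i 0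
    have h2 := nb_Q ζ l 0
    have hne1 : (1 : K) - ζ ^ (i + 1) ≠ 0 := one_sub_pow_ne hζ (by omega) (by omega)
    have hne2 : (1 : K) - ζ ^ (l + 1) ≠ 0 := one_sub_pow_ne hζ (by omega) (by omega)
    simp only [add_zero] at h1 h2
    have h1' : nb ζ (i + 1) 0 = -ζ ^ (i + 1) * nb ζ i 0 := by
      apply mul_right_cancel₀ hne1
      rw [h1]; ring
    have h2' : nb ζ (l + 1) 0 = -ζ ^ (l + 1) * nb ζ l 0 := by
      apply mul_right_cancel₀ hne2
      rw [h2]; ring
    have hz : ζ ^ (i + 1) * ζ ^ (l + 1) = 1 := by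
      rw [← pow_add, show i + 1 + (l + 1) = d by omega, hζ.pow_eq_one]
    rw [h1', ih', h2']
    linear_combination (nb ζ l 0) * hz

/-- reflection symmetry for small indices -/
lemma nb_small (hζ : IsPrimitiveRoot ζ d) {i j l : ℕ} (h : i + j + l + 1 = d) :
    nb ζ i j = nb ζ l j := by
  induction j generalizing i l with
  | zero => exact nb_small_zero hζ (by omega)
  | succ j ih =>
    have hne : (1 : K) - ζ ^ (j + 1) ≠ 0 := one_sub_pow_ne hζ (by omega) (by omega)
    apply mul_right_cancel₀ hne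
    rw [nb_P, nb_P]
    congr 1
    have ih' := ih (i := i) (l := l + 1) (by omega)
    have hQ := nb_Q ζ l j
    rw [← ih'] at hQ
    have hz : ζ ^ (i + j + 1) * ζ ^ (l + 1) = 1 := by
      rw [← pow_add, show i + j + 1 + (l + 1) = d by omega, hζ.pow_eq_one]
    have hzne : ζ ^ (l + 1) ≠ 0 := right_ne_zero_of_mul_eq_one hz
    apply mul_left_cancel₀ hzne
    linear_combination (-(nb ζ i j)) * hz - hQ

/-- `q`-Lucas theorem -/
lemma qb_lucas (hζ : IsPrimitiveRoot ζ d) (hd : 0 < d) :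
    ∀ (s i₁ i₀ j₁ j₀ : ℕ), i₀ < d → j₀ < d → i₁ * d + i₀ + (j₁ * d + j₀) = s →
      qb ζ (i₁ * d + i₀) (j₁ * d + j₀) = ((i₁ + j₁).choose i₁ : K) * qb ζ i₀ j₀ := by
  intro s
  induction s with
  | zero =>
    intro i₁ i₀ j₁ j₀ _ _ h
    have h1 : i₁ * d + i₀ = 0 := by omega
    have h2 : j₁ * d + j₀ = 0 := by omega
    have hi : i₁ = 0 := by
      rcases Nat.eq_zero_or_pos i₁ with h | h
      · exact h
      · have := Nat.mul_pos h hd; omega
    have hj : j₁ = 0 := by
      rcases Nat.eq_zero_or_pos j₁ with h | h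
      · exact h
      · have := Nat.mul_pos h hd; omega
    subst hi; subst hj
    simp
  | succ s ih =>
    intro i₁ i₀ j₁ j₀ hi0 hj0 h
    have hzd : ∀ m : ℕ, ζ ^ (m * d) = 1 := fun m => by
      rw [mul_comm, pow_mul, hζ.pow_eq_one, one_pow]
    rcases Nat.eq_zero_or_pos i₀ with hi | hi
    · subst hi
      rcases Nat.eq_zero_or_pos j₀ with hj | hj
      · subst hj
        rcases Nat.eq_zero_or_pos i₁ with hi1 | hi1
        · subst hi1; simp
        rcases Nat.eq_zero_or_pos j₁ with hj1 | hj1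
        · subst hj1; simp
        obtain ⟨a, rfl⟩ : ∃ a, i₁ = a + 1 := ⟨i₁ - 1, by omega⟩
        obtain ⟨b, rfl⟩ : ∃ b, j₁ = b + 1 := ⟨j₁ - 1, by omega⟩
        have e1 : (a + 1) * d + 0 = (a * d + (d - 1)) + 1 := by
          rw [add_mul]; omega
        have e2 : (b + 1) * d + 0 = (b * d + (d - 1)) + 1 := by
          rw [add_mul]; omega
        have hA := ih a (d - 1) (b + 1) 0 (by omega) (by omega) (by rw [e1, e2] at h; rw [e2]; omega)
        have hB := ih (a + 1) 0 b (d - 1) (by omega) (by omega) (by rw [e1, e2] at h; rw [e1]; omega)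
        rw [e1, e2] 
        rw [qb_succ_succ, ← e1, ← e2, hA, hB]
        simp only [qb_zero_right, qb_zero_left, mul_one, add_zero]
        rw [hzd, one_mul, show a + 1 + (b + 1) = (a + (b + 1)) + 1 by ring,
          Nat.choose_succ_succ, show a + 1 + b = a + (b + 1) by ring]
        push_cast
        ring
      · rcases Nat.eq_zero_or_pos i₁ with hi1 | hi1
        · subst hi1; simp
        obtain ⟨a, rfl⟩ : ∃ a, i₁ = a + 1 := ⟨i₁ - 1, by omega⟩
        obtain ⟨c, rfl⟩ : ∃ c, j₀ = c + 1 := ⟨j₀ - 1, by omega⟩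
        have e1 : (a + 1) * d + 0 = (a * d + (d - 1)) + 1 := by
          rw [add_mul]; omega
        have e2 : j₁ * d + (c + 1) = (j₁ * d + c) + 1 := by omega
        have hA := ih a (d - 1) j₁ (c + 1) (by omega) (by omega) (by rw [e1] at h; omega)
        have hB := ih (a + 1) 0 j₁ c (by omega) (by omega) (by omega)
        rw [e1, e2, qb_succ_succ, ← e1, ← e2, hA, hB]
        rw [qb_eq_zero hζ (by omega : d - 1 < d) hj0 (by omega), add_zero, hzd]
        simp
    · obtain ⟨a, rfl⟩ : ∃ a, i₀ = a + 1 := ⟨i₀ - 1, by omega⟩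
      rcases Nat.eq_zero_or_pos j₀ with hj | hj
      · subst hj
        rcases Nat.eq_zero_or_pos j₁ with hj1 | hj1
        · subst hj1; simp
        obtain ⟨b, rfl⟩ : ∃ b, j₁ = b + 1 := ⟨j₁ - 1, by omega⟩
        have e1 : i₁ * d + (a + 1) = (i₁ * d + a) + 1 := by omega
        have e2 : (b + 1) * d + 0 = (b * d + (d - 1)) + 1 := by
          rw [add_mul]; omega
        have hA := ih i₁ a (b + 1) 0 (by omega) (by omega) (by omega)
        have hB := ih i₁ (a + 1) b (d - 1) (by omega) (by omega) (by rw [e2] at h; omega)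
        rw [e1, e2, qb_succ_succ, ← e1, ← e2, hA, hB]
        rw [qb_eq_zero hζ hi0 (by omega : d - 1 < d) (by omega)]
        simp
      · obtain ⟨c, rfl⟩ : ∃ c, j₀ = c + 1 := ⟨j₀ - 1, by omega⟩
        have e1 : i₁ * d + (a + 1) = (i₁ * d + a) + 1 := by omega
        have e2 : j₁ * d + (c + 1) = (j₁ * d + c) + 1 := by omega
        have hA := ih i₁ a j₁ (c + 1) (by omega) (by omega) (by omega)
        have hB := ih i₁ (a + 1) j₁ c (by omega) (by omega) (by omega)
        rw [e1, e2, qb_succ_succ, ← e1, ← e2, hA, hB, qb_succ_succ]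
        rw [pow_add ζ (i₁ * d), hzd]
        ring

lemma add_choose_two' (m n : ℕ) : (m + n).choose 2 = m.choose 2 + m * n + n.choose 2 := by
  induction n with
  | zero => simp
  | succ n ih =>
    rw [← add_assoc, Nat.choose_succ_succ' (m + n) 1, Nat.choose_succ_succ' n 1,
      Nat.choose_one_right, Nat.choose_one_right, ih]
    ring

lemma pow_choose (hζ : IsPrimitiveRoot ζ d) (a b : ℕ) :
    ζ ^ ((a * d + b + 1).choose 2) = ζ ^ ((a * d).choose 2) * ζ ^ ((b + 1).choose 2) := by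
  rw [add_assoc, add_choose_two', pow_add, pow_add, show a * d * (b + 1) = d * (a * (b + 1)) by ring, pow_mul,
    hζ.pow_eq_one, one_pow, mul_one]

/-- full reflection symmetry -/
lemma nb_reflect (hζ : IsPrimitiveRoot ζ d) (hd : 0 < d) (a i₀ l₀ j : ℕ) (hi : i₀ < d)
    (hl : l₀ < d) (h : d ∣ i₀ + j + l₀ + 1) :
    nb ζ (a * d + i₀) j = nb ζ (a * d + l₀) j := by
  have hj : j = (j / d) * d + j % d := (Nat.div_add_mod' j d).symm
  set b := j / d with hb
  set j₀ := j % d with hj0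
  have hj0d : j₀ < d := Nat.mod_lt _ hd
  have h' : d ∣ i₀ + j₀ + l₀ + 1 := by
    have : i₀ + j + l₀ + 1 = b * d + (i₀ + j₀ + l₀ + 1) := by rw [hj]; ring
    rw [this] at h
    exact (Nat.dvd_add_right (Dvd.intro_left b rfl)).1 h
  have key : ∀ c₀, c₀ < d → nb ζ (a * d + c₀) j =
      ((-1) ^ (a * d + b * d) * ζ ^ ((a * d).choose 2) * ζ ^ ((b * d).choose 2) *
        ((a + b).choose a : K)) * nb ζ c₀ j₀ := by
    intro c₀ hc
    unfold nb
    rw [hj, qb_lucas hζ hd _ a c₀ b j₀ hc hj0d rfl, pow_add ζ, pow_choose hζ, pow_choose hζ,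
      pow_add ζ]
    ring
  rw [key i₀ hi, key l₀ hl]
  congr 1
  obtain ⟨c, hc⟩ := h'
  have hc0 : c = 1 ∨ c = 2 := by
    have h1 : 0 < c := by
      rcases Nat.eq_zero_or_pos c with h | h
      · subst h; omega
      · exact h
    have h2 : c < 3 := by
      by_contra hcon
      have : d * 3 ≤ d * c := Nat.mul_le_mul_left d (by omega)
      omega
    omega
  rcases hc0 with rfl | rfl
  · exact nb_small hζ (by omega)
  · unfold nb
    rw [qb_eq_zero hζ hi hj0d (by omega), qb_eq_zero hζ hl hj0d (by omega)]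
    simp

/-- The index set: pairs `(i,j)` with `i + j < n`. -/
def tri (n : ℕ) : Finset (ℕ × ℕ) := (range n ×ˢ range n).filter (fun p => p.1 + p.2 < n)

lemma mem_tri {n : ℕ} {p : ℕ × ℕ} : p ∈ tri n ↔ p.1 + p.2 < n := by
  simp only [tri, mem_filter, mem_product, mem_range]
  omega

lemma sum_tri {M : Type*} [AddCommMonoid M] (n : ℕ) (f : ℕ × ℕ → M) :
    ∑ p ∈ tri n, f p = ∑ k ∈ range n, ∑ p ∈ antidiagonal k, f p := by
  rw [Finset.sum_sigma']
  refine Finset.sum_nbij' (fun p => ⟨p.1 + p.2, p⟩) (fun x => x.2) ?_ ?_ ?_ ?_ ?_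
  · intro p hp
    rw [mem_tri] at hp
    simp [hp]
  · rintro ⟨k, p⟩ hx
    simp only [mem_sigma, mem_range, HasAntidiagonal.mem_antidiagonal] at hx
    rw [mem_tri]
    obtain ⟨h1, h2⟩ := hx
    show p.1 + p.2 < n
    omega
  · intro p _; rfl
  · rintro ⟨k, p⟩ hx
    simp only [mem_sigma, mem_range, HasAntidiagonal.mem_antidiagonal] at hx
    obtain ⟨_, rfl⟩ := hx
    rfl
  · intro p _; rfl

/-- vanishing of the twisted sum at a root of unity -/
lemma sum_eq_zero (hζ : IsPrimitiveRoot ζ d) (hd : 0 < d) (r n : ℕ) (hdn : d ∣ n) :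
    ∑ p ∈ tri n, (ζ ^ p.1 - ζ ^ (n - 1 - p.1 - p.2)) * (nb ζ p.1 p.2) ^ r = 0 := by
  simp only [sub_mul, Finset.sum_sub_distrib]
  rw [sub_eq_zero]
  have hmod : ∀ m : ℕ, ζ ^ m = ζ ^ (m % d) := fun m => by
    conv_lhs => rw [← Nat.div_add_mod m d, pow_add, pow_mul, hζ.pow_eq_one, one_pow, one_mul]
  set σ : ℕ × ℕ → ℕ × ℕ := fun p => ((p.1 / d) * d + (n - 1 - p.1 - p.2) % d, p.2) with hσ
  have hs : ∀ p ∈ tri n, σ p ∈ tri n := by
    intro p hp
    rw [mem_tri] at hp ⊢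
    have h1 := Nat.div_add_mod' p.1 d
    have h2 := Nat.mod_le (n - 1 - p.1 - p.2) d
    simp only [hσ]
    have h3 : p.1 / d * d ≤ p.1 := Nat.div_mul_le_self _ _
    omega
  have hcomp : ∀ p ∈ tri n, n - 1 - (σ p).1 - (σ p).2 = ((n - 1 - p.1 - p.2) / d) * d + p.1 % d := by
    intro p hp
    rw [mem_tri] at hp
    have h1 := Nat.div_add_mod' p.1 d
    have h2 := Nat.div_add_mod' (n - 1 - p.1 - p.2) d
    simp only [hσ]
    omega
  have hdiv : ∀ a c : ℕ, c < d → (a * d + c) / d = a := by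
    intro a c hc
    rw [mul_comm, Nat.mul_add_div hd, Nat.div_eq_of_lt hc, add_zero]
  have hmod' : ∀ a c : ℕ, c < d → (a * d + c) % d = c := by
    intro a c hc
    rw [mul_comm, Nat.mul_add_mod, Nat.mod_eq_of_lt hc]
  have hinv : ∀ p ∈ tri n, σ (σ p) = p := by
    intro p hp
    have hc := hcomp p hp
    have hl : (n - 1 - p.1 - p.2) % d < d := Nat.mod_lt _ hd
    have e : (σ (σ p)) = (((σ p).1 / d) * d + (n - 1 - (σ p).1 - (σ p).2) % d, (σ p).2) := rfl
    rw [e, hc, hmod' _ _ (Nat.mod_lt _ hd)]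
    have e2 : (σ p).1 / d = p.1 / d := hdiv _ _ hl
    rw [e2, Nat.div_add_mod']
  refine Finset.sum_nbij' σ σ hs hs hinv hinv ?_
  intro p hp
  have hp' := mem_tri.1 hp
  have hc := hcomp p hp
  rw [hc]
  have hN : nb ζ (σ p).1 (σ p).2 = nb ζ p.1 p.2 := by
    have hr := nb_reflect hζ hd (p.1 / d) (p.1 % d) ((n - 1 - p.1 - p.2) % d) p.2
      (Nat.mod_lt _ hd) (Nat.mod_lt _ hd) ?_
    · rw [Nat.div_add_mod'] at hr
      exact hr.symm
    · obtain ⟨c, hc⟩ := hdn
      have h1 := Nat.div_add_mod' p.1 d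
      have h2 := Nat.div_add_mod' (n - 1 - p.1 - p.2) d
      have h3 : (p.1 % d + p.2 + (n - 1 - p.1 - p.2) % d + 1) +
        (p.1 / d * d + (n - 1 - p.1 - p.2) / d * d) = d * c := by omega
      have h4 : d ∣ p.1 / d * d + (n - 1 - p.1 - p.2) / d * d :=
        Dvd.dvd.add (Dvd.intro_left _ rfl) (Dvd.intro_left _ rfl)
      exact (Nat.dvd_add_left h4).1 (h3 ▸ Dvd.intro _ rfl)
  rw [hN]
  congr 1
  rw [hmod p.1, hmod (_ + _), hmod' _ _ (Nat.mod_lt _ hd)]

end RootOfUnity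

section Poly

open Polynomial

/-- `[m]_q` -/
noncomputable def br (m : ℕ) : ℤ[X] := ∑ t ∈ range m, X ^ t

/-- the `q`-analogue of the sum -/
noncomputable def SP (r n : ℕ) : ℤ[X] :=
  ∑ p ∈ tri n, (br p.1 - br (n - 1 - p.1 - p.2)) * (nb X p.1 p.2) ^ r

lemma aeval_SP {ζ : ℂ} {d : ℕ} (hζ : IsPrimitiveRoot ζ d) (hd : 1 < d) (r n : ℕ) (hdn : d ∣ n) :
    aeval ζ (SP r n) = 0 := by
  have hz : ζ - 1 ≠ 0 := sub_ne_zero.2 (hζ.ne_one hd)
  apply mul_left_cancel₀ hz
  rw [mul_zero, ← sum_eq_zero hζ (by omega) r n hdn, SP, map_sum, Finset.mul_sum]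
  refine Finset.sum_congr rfl fun p _ => ?_
  have hbr : ∀ m, (ζ - 1) * aeval ζ (br m) = ζ ^ m - 1 := by
    intro m
    rw [br, map_sum]
    simp only [map_pow, aeval_X]
    rw [mul_comm, geom_sum_mul]
  have hnb : aeval ζ (nb (X : ℤ[X]) p.1 p.2) = nb ζ p.1 p.2 := by
    have := map_nb ((aeval ζ : ℤ[X] →ₐ[ℤ] ℂ) : ℤ[X] →+* ℂ) X p.1 p.2
    simpa using this
  rw [map_mul, map_sub, map_pow, hnb, ← mul_assoc, mul_sub, hbr, hbr]
  ring

lemma br_dvd_SP (r n : ℕ) (hn : 0 < n) : br n ∣ SP r n := by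
  have hmon : (br n).Monic := by
    have := Polynomial.prod_cyclotomic_eq_geom_sum hn ℤ
    rw [br, ← this]
    exact monic_prod_of_monic _ _ fun i _ => cyclotomic.monic i ℤ
  rw [← Polynomial.map_dvd_map (Int.castRingHom ℚ) Int.cast_injective hmon]
  have hb : (br n).map (Int.castRingHom ℚ) = ∏ i ∈ n.divisors.erase 1, cyclotomic i ℚ := by
    rw [Polynomial.prod_cyclotomic_eq_geom_sum hn ℚ, br]
    simp [Polynomial.map_sum]
  rw [hb]
  apply Finset.prod_dvd_of_coprime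
  · intro i _ j _ hij
    exact cyclotomic.isCoprime_rat hij
  · intro i hi
    rw [Finset.mem_erase, Nat.mem_divisors] at hi
    obtain ⟨hi1, hin, hn0⟩ := hi
    have hipos : 0 < i := Nat.pos_of_dvd_of_pos hin hn
    have hζ := Complex.isPrimitiveRoot_exp i hipos.ne'
    rw [cyclotomic_eq_minpoly_rat hζ hipos]
    apply minpoly.dvd
    have h := aeval_SP hζ (by omega) r n hin
    rw [← algebraMap_int_eq, aeval_map_algebraMap]
    exact h

lemma eval_br (m : ℕ) : (br m).eval 1 = (m : ℤ) := by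
  simp [br, eval_finsetSum]

lemma n_dvd (r n : ℕ) (hn : 0 < n) :
    (n : ℤ) ∣ ∑ p ∈ tri n, ((p.1 : ℤ) - ((n - 1 - p.1 - p.2 : ℕ) : ℤ)) *
      ((-1) ^ (p.1 + p.2) * ((p.1 + p.2).choose p.1 : ℤ)) ^ r := by
  obtain ⟨c, hc⟩ := br_dvd_SP r n hn
  have h := congrArg (Polynomial.eval 1) hc
  rw [eval_mul, eval_br] at h
  have h2 : (SP r n).eval 1 = ∑ p ∈ tri n, ((p.1 : ℤ) - ((n - 1 - p.1 - p.2 : ℕ) : ℤ)) *
      ((-1) ^ (p.1 + p.2) * ((p.1 + p.2).choose p.1 : ℤ)) ^ r := by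
    rw [SP, eval_finsetSum]
    refine Finset.sum_congr rfl fun p _ => ?_
    rw [eval_mul, eval_sub, eval_br, eval_br, eval_pow]
    have := map_nb (evalRingHom (1 : ℤ)) X p.1 p.2
    rw [coe_evalRingHom] at this
    rw [this, eval_X, nb_one]
  rw [← h2, h]
  exact Dvd.intro _ rfl

end Poly

/-- For all `r` and `n`, `2 n` divides `∑_{k<n} (-1)^(r k) (3 k + 2) ∑_{j ≤ k} (k choose j)^r`. -/
theorem main (r n : ℕ) :
    (2 * n : ℤ) ∣ ∑ k ∈ range n, (-1 : ℤ) ^ (r * k) * (3 * k + 2) *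
      ∑ j ∈ range (k + 1), (k.choose j : ℤ) ^ r := by
  rcases Nat.eq_zero_or_pos n with rfl | hn
  · simp
  obtain ⟨c, hc⟩ := n_dvd r n hn
  rw [sum_tri] at hc
  have hk : ∀ k ∈ range n, 2 * ∑ p ∈ antidiagonal k, ((p.1 : ℤ) - ((n - 1 - p.1 - p.2 : ℕ) : ℤ)) *
      ((-1) ^ (p.1 + p.2) * ((p.1 + p.2).choose p.1 : ℤ)) ^ r =
      (-1 : ℤ) ^ (r * k) * (3 * k + 2) * ∑ j ∈ range (k + 1), (k.choose j : ℤ) ^ r
      - 2 * n * ((-1 : ℤ) ^ (r * k) * ∑ j ∈ range (k + 1), (k.choose j : ℤ) ^ r) := by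
    intro k hkn
    rw [mem_range] at hkn
    have e1 : ∑ p ∈ antidiagonal k, ((p.1 : ℤ) - ((n - 1 - p.1 - p.2 : ℕ) : ℤ)) *
      ((-1) ^ (p.1 + p.2) * ((p.1 + p.2).choose p.1 : ℤ)) ^ r =
      ∑ p ∈ antidiagonal k, ((p.1 : ℤ) - (n - 1 - k)) * ((-1) ^ (r * k) * (k.choose p.1 : ℤ) ^ r) := by
      refine Finset.sum_congr rfl fun p hp => ?_
      rw [HasAntidiagonal.mem_antidiagonal] at hp
      rw [hp, mul_pow, ← pow_mul, mul_comm k r]
      congr 2
      have : n - 1 - p.1 - p.2 = n - 1 - k := by omega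
      rw [this]
      push_cast [Nat.cast_sub (by omega : k ≤ n - 1), Nat.cast_sub (by omega : 1 ≤ n)]
      ring
    have e2 : ∑ p ∈ antidiagonal k, ((p.1 : ℤ) - (n - 1 - k)) * ((-1) ^ (r * k) * (k.choose p.1 : ℤ) ^ r)
      = ∑ p ∈ antidiagonal k, ((p.2 : ℤ) - (n - 1 - k)) * ((-1) ^ (r * k) * (k.choose p.1 : ℤ) ^ r) := by
      rw [← Finset.Nat.sum_antidiagonal_swap]
      refine Finset.sum_congr rfl fun p hp => ?_
      rw [HasAntidiagonal.mem_antidiagonal] at hp
      simp only [Prod.fst_swap]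
      have : k.choose p.2 = k.choose p.1 := by
        rw [← hp]; exact (Nat.choose_symm_add).symm
      rw [this]
    have e3 : ∑ j ∈ range (k + 1), (k.choose j : ℤ) ^ r = ∑ p ∈ antidiagonal k, (k.choose p.1 : ℤ) ^ r := by
      rw [Finset.Nat.sum_antidiagonal_eq_sum_range_succ_mk]
    rw [two_mul]
    nth_rewrite 2 [e1]
    rw [e1, e2]
    nth_rewrite 2 [← e2]
    rw [← Finset.sum_add_distrib, e3, Finset.mul_sum, Finset.mul_sum, Finset.mul_sum,
      ← Finset.sum_sub_distrib]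
    refine Finset.sum_congr rfl fun p hp => ?_
    rw [HasAntidiagonal.mem_antidiagonal] at hp
    have : (k : ℤ) = p.1 + p.2 := by rw [← hp]; push_cast; ring
    rw [this]
    ring
  have hsum := Finset.sum_congr rfl hk
  rw [← Finset.mul_sum, hc, Finset.sum_sub_distrib, ← Finset.mul_sum] at hsum
  refine ⟨c + ∑ k ∈ range n, ((-1 : ℤ) ^ (r * k) * ∑ j ∈ range (k + 1), (k.choose j : ℤ) ^ r), ?_⟩
  linarith

end Pool.Agent.H94.SunFourth
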